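import Mathlib
import Pool.Agent.H176B.Far
import Pool.Agent.H447R2.ML.R4
import Pool.Agent.W66.XD

set_option autoImplicit false

/-!
# Integer perturbations: the phase functions, the change of variables and the prefixes
-/

namespace Pool.Agent.H176C

open Pool.Agent.H176M Pool.Agent.H176B
open Finset Filter Topology MeasureTheory
open Pool.Agent.H305R2 (roughPart NN ff LL LL_eq LL_cont LL_nonneg LL_le_one ff_nonneg ff_le_one
  measurable_ff measurable_NN)
open Pool.Agent.W66X (ysh measurable_ysh)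
open Pool.Agent.H447R2.ML (Sh sh_of exp_shift)

/-- an integer perturbation of exponential growth smaller than that of the base -/
class Ptb [Bs] where
  /-- the perturbation -/
  g : ℕ → ℤ
  /-- the growth -/
  κ : ℝ
  /-- the constant -/
  C : ℝ
  κ0 : 0 ≤ κ
  κb : κ < (Bs.b : ℝ)
  hg : ∀ p, |((g p : ℤ) : ℝ)| ≤ C * κ ^ p

variable [Bs] [Ptb]

/-- the perturbation, as a real number -/
noncomputable def gr' (p : ℕ) : ℝ := ((Ptb.g p : ℤ) : ℝ)

/-- the phase functions -/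
noncomputable def yp (p : ℕ) (t : ℝ) : ℝ := ysh (Bs.b : ℝ) gr' p t

/-- the indicator of the event that the `p`-rough part is prime -/
noncomputable def fp (p : ℕ) (t : ℝ) : ℝ :=
  if (roughPart p (((NN (t + p * Real.log Bs.b) : ℕ) : ℤ) + Ptb.g p).toNat).Prime then 1 else 0

/-- the local mean -/
noncomputable def lp (p : ℕ) (t : ℝ) : ℝ := LL p (yp p t)

lemma fp_nonneg (p : ℕ) (t : ℝ) : 0 ≤ fp p t := by
  unfold fp; split_ifs <;> norm_num

lemma fp_le_one (p : ℕ) (t : ℝ) : fp p t ≤ 1 := by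
  unfold fp; split_ifs <;> norm_num

lemma fp_01 (p : ℕ) (t : ℝ) : fp p t = 0 ∨ fp p t = 1 := by
  unfold fp; split_ifs <;> simp

lemma lp_nonneg (p : ℕ) (t : ℝ) : 0 ≤ lp p t := LL_nonneg _ _

lemma lp_le_one (p : ℕ) (t : ℝ) : lp p t ≤ 1 := LL_le_one _ _

lemma measurable_fp (p : ℕ) : Measurable (fp p) := by
  have h : fp p = (fun n : ℕ => if (roughPart p ((n : ℤ) + Ptb.g p).toNat).Prime then (1 : ℝ) else 0) ∘
      (fun t : ℝ => NN (t + p * Real.log Bs.b)) := rfl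
  rw [h]
  exact measurable_from_nat.comp (measurable_NN.comp (measurable_id.add_const _))

lemma measurable_yp (p : ℕ) : Measurable (yp p) := measurable_ysh _ _ _

lemma measurable_lp (p : ℕ) : Measurable (lp p) := (LL_cont p).measurable.comp (measurable_yp p)

lemma gr'_bound (p : ℕ) : |gr' p| ≤ (Ptb.C : ℝ) * (Ptb.κ : ℝ) ^ p := Ptb.hg p

/-- the perturbation is small -/
lemma small (b0 : ℝ) (A : ℕ) : ∀ᶠ p : ℕ in atTop, |gr' p| ≤ 1 / (10 * (p : ℝ) ^ A) * (Real.exp b0 * (Bs.b : ℝ) ^ p) := by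
  have hbs0 := bs_pos
  have hb : (0 : ℝ) < Bs.b := bsr_pos
  have hr : |(Ptb.κ : ℝ) / (Bs.b : ℝ)| < 1 := by
    rw [abs_of_nonneg (div_nonneg Ptb.κ0 hb.le)]
    exact (div_lt_one hb).2 Ptb.κb
  have h1 := (tendsto_pow_const_mul_const_pow_of_abs_lt_one A hr).const_mul (10 * (Ptb.C : ℝ))
  rw [mul_zero] at h1
  have h2 := h1.eventually_lt_const (Real.exp_pos b0)
  filter_upwards [h2, eventually_ge_atTop 1] with p hp hp1
  refine (gr'_bound p).trans ?_
  have hp0 : (0 : ℝ) < p := by exact_mod_cast hp1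
  have hαp : (0 : ℝ) < (Bs.b : ℝ) ^ p := pow_pos hb p
  rw [div_pow] at hp
  have h3 := mul_lt_mul_of_pos_right hp hαp
  have h4 : 10 * (Ptb.C : ℝ) * ((p : ℝ) ^ A * ((Ptb.κ : ℝ) ^ p / (Bs.b : ℝ) ^ p)) * (Bs.b : ℝ) ^ p =
      10 * (p : ℝ) ^ A * ((Ptb.C : ℝ) * (Ptb.κ : ℝ) ^ p) := by
    field_simp
  rw [h4] at h3
  rw [one_div, ← div_eq_inv_mul, le_div_iff₀ (by positivity)]
  linarith

/-- the exponential of the phase function -/
lemma exp_yp {b0 θ : ℝ} (hθ1 : θ ≤ 1 / 10) {p : ℕ}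
    (hp : |gr' p| ≤ θ * (Real.exp b0 * (Bs.b : ℝ) ^ p)) {t : ℝ} (ht : b0 ≤ t) :
    Real.exp (yp p t) = Real.exp t * (Bs.b : ℝ) ^ p + gr' p ∧ |gr' p| ≤ θ * (Real.exp t * (Bs.b : ℝ) ^ p) ∧
      0 < Real.exp t * (Bs.b : ℝ) ^ p + gr' p := by
  have hbs0 := bs_pos
  have hθ0 : 0 ≤ θ := by
    by_contra h
    have h1 : θ * (Real.exp b0 * (Bs.b : ℝ) ^ p) < 0 := mul_neg_of_neg_of_pos (not_le.1 h) (by positivity)
    linarith [abs_nonneg (gr' p)]
  have h1 : |gr' p| ≤ θ * (Real.exp t * (Bs.b : ℝ) ^ p) := hp.trans (by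
    have := Real.exp_le_exp.2 ht
    gcongr)
  have h2 : (0 : ℝ) < Real.exp t * (Bs.b : ℝ) ^ p := by positivity
  have h3 := neg_abs_le (gr' p)
  have h4 : 0 < Real.exp t * (Bs.b : ℝ) ^ p + gr' p := by nlinarith
  refine ⟨?_, h1, h4⟩
  unfold yp ysh
  rw [Real.exp_log h4]

/-- the indicator in terms of the phase function -/
lemma fp_eq {b0 θ : ℝ} (hθ1 : θ ≤ 1 / 10) {p : ℕ}
    (hp : |gr' p| ≤ θ * (Real.exp b0 * (Bs.b : ℝ) ^ p)) {t : ℝ} (ht : b0 ≤ t) :
    fp p t = ff p (yp p t) := by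
  have hbs0 := bs_pos
  obtain ⟨h1, _, h3⟩ := exp_yp hθ1 hp ht
  unfold fp ff NN
  rw [h1, exp_add_bs]
  have h4 : ⌈Real.exp t * (Bs.b : ℝ) ^ p + gr' p⌉ = ⌈Real.exp t * (Bs.b : ℝ) ^ p⌉ + Ptb.g p := by
    unfold gr'
    exact Int.ceil_add_intCast _ _
  have h5 : ((⌈Real.exp t * (Bs.b : ℝ) ^ p⌉₊ : ℕ) : ℤ) = ⌈Real.exp t * (Bs.b : ℝ) ^ p⌉ :=
    Int.natCast_ceil_eq_ceil (by positivity)
  have h6 : ((⌈Real.exp t * (Bs.b : ℝ) ^ p + gr' p⌉₊ : ℕ) : ℤ) = ⌈Real.exp t * (Bs.b : ℝ) ^ p + gr' p⌉ :=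
    Int.natCast_ceil_eq_ceil h3.le
  have h7 : 0 < ⌈Real.exp t * (Bs.b : ℝ) ^ p⌉₊ := Nat.ceil_pos.2 (by positivity)
  have h8 : 0 < ⌈Real.exp t * (Bs.b : ℝ) ^ p + gr' p⌉₊ := Nat.ceil_pos.2 h3
  have h9 : (((⌈Real.exp t * (Bs.b : ℝ) ^ p⌉₊ - 1 : ℕ) : ℤ) + Ptb.g p).toNat =
      ⌈Real.exp t * (Bs.b : ℝ) ^ p + gr' p⌉₊ - 1 := by
    omega
  rw [h9]

/-- the phase function is near to the unperturbed one -/
lemma yp_near {b0 θ : ℝ} (hθ1 : θ ≤ 1 / 10) {p : ℕ}
    (hp : |gr' p| ≤ θ * (Real.exp b0 * (Bs.b : ℝ) ^ p)) {t : ℝ} (ht : b0 ≤ t) :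
    |yp p t - (t + p * Real.log Bs.b)| ≤ 2 * θ := by
  have hbs0 := bs_pos
  obtain ⟨h1, h2, h3⟩ := exp_yp hθ1 hp ht
  set E := Real.exp t * (Bs.b : ℝ) ^ p with hE
  have hE0 : 0 < E := by positivity
  have hE1 : Real.exp (t + p * Real.log Bs.b) = E := exp_add_bs t p
  have hθ0 : 0 ≤ θ := by
    by_contra h
    have h1 : θ * E < 0 := mul_neg_of_neg_of_pos (not_le.1 h) hE0
    linarith [abs_nonneg (gr' p)]
  have h5 : Real.exp (yp p t - (t + p * Real.log Bs.b)) = 1 + gr' p / E := by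
    rw [Real.exp_sub, h1, hE1]
    field_simp
  obtain ⟨h6, h7⟩ := abs_le.1 h2
  have h8 : gr' p / E ≤ θ := by rw [div_le_iff₀ hE0]; exact h7
  have h9 : -θ ≤ gr' p / E := by rw [le_div_iff₀ hE0]; linarith
  rw [abs_le]
  constructor
  · have h10 : Real.exp (-(2 * θ)) ≤ 1 + gr' p / E := by
      have h11 : Real.exp (-(2 * θ)) ≤ 1 - θ := by
        rw [Real.exp_neg, inv_le_comm₀ (Real.exp_pos _) (by linarith)]
        have h12 := Real.add_one_le_exp (2 * θ)
        have h13 : (1 - θ)⁻¹ ≤ 2 * θ + 1 := by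
          rw [inv_le_comm₀ (by linarith) (by linarith), inv_eq_one_div, div_le_iff₀ (by linarith)]
          nlinarith
        linarith
      linarith
    rw [← h5] at h10
    exact Real.exp_le_exp.1 h10
  · have h10 : 1 + gr' p / E ≤ Real.exp (2 * θ) := by
      have := Real.add_one_le_exp (2 * θ)
      linarith
    rw [← h5] at h10
    exact Real.exp_le_exp.1 h10

/-- the phase functions are Lipschitz -/
lemma yp_lip {b0 θ : ℝ} (hθ1 : θ ≤ 1 / 10) {p : ℕ}
    (hp : |gr' p| ≤ θ * (Real.exp b0 * (Bs.b : ℝ) ^ p)) {s t : ℝ} (hs : b0 ≤ s) (hst : s ≤ t) :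
    yp p s ≤ yp p t ∧ yp p t - yp p s ≤ 2 * (t - s) := by
  have hbs0 := bs_pos
  obtain ⟨h1, h2, h3⟩ := exp_yp hθ1 hp hs
  obtain ⟨h1', h2', h3'⟩ := exp_yp hθ1 hp (hs.trans hst)
  have hmono : Real.exp s * (Bs.b : ℝ) ^ p ≤ Real.exp t * (Bs.b : ℝ) ^ p := by
    have := Real.exp_le_exp.2 hst
    gcongr
  constructor
  · rw [← Real.exp_le_exp, h1, h1']
    linarith
  · rw [← Real.exp_le_exp, Real.exp_sub, h1, h1', div_le_iff₀ h3]
    -- `x + g ≤ (x / y) ^ 2 (y + g)` for `x ≥ y`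
    set y := Real.exp s * (Bs.b : ℝ) ^ p with hy
    have hy0 : 0 < y := by positivity
    have hx : Real.exp t * (Bs.b : ℝ) ^ p = Real.exp (t - s) * y := by
      rw [hy, ← mul_assoc, ← Real.exp_add]
      congr 2
      ring
    have h4 : Real.exp (2 * (t - s)) = Real.exp (t - s) ^ 2 := by rw [← Real.exp_nat_mul]; norm_num
    rw [hx, h4]
    set q := Real.exp (t - s) with hq
    have hq1 : 1 ≤ q := Real.one_le_exp (by linarith)
    have h5 := neg_abs_le (gr' p)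
    have h6 : θ * y ≤ 1 / 10 * y := mul_le_mul_of_nonneg_right hθ1 hy0.le
    have h7 : -(1 / 10 * y) ≤ gr' p := by linarith
    -- q y + g ≤ q ^ 2 y + q ^ 2 g  iff  0 ≤ (q - 1) (q y + (q + 1) g)
    have h8 : 0 ≤ (q - 1) * (q * y + (q + 1) * gr' p) := by
      apply mul_nonneg (by linarith)
      nlinarith
    nlinarith

/-- the change of variables -/
lemma cov (b0 : ℝ) (A : ℕ) : ∃ P : ℕ, 3 ≤ P ∧ ∀ p ≥ P, ∀ b1 : ℝ, b0 ≤ b1 → b1 ≤ b0 + 1 →
    ∀ (F : ℝ → ℝ) (B : ℝ), Measurable F → (∀ u, |F u| ≤ B) →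
    |(∫ t in Set.Ioc b0 b1, F (yp p t)) - ∫ t in Set.Ioc b0 b1, F (t + p * Real.log Bs.b)| ≤
      B * (1 / (p : ℝ) ^ A) := by
  have hbs0 := bs_pos
  have hb : (0 : ℝ) < Bs.b := bsr_pos
  obtain ⟨P, hP⟩ := eventually_atTop.1 ((small b0 A).and
    ((sh_of hb Ptb.κ0 Ptb.κb gr'_bound b0 (b0 + 1)).and (eventually_ge_atTop 3)))
  refine ⟨P + 3, by omega, fun p hp b1 h01 h11 F B hF hB => ?_⟩
  obtain ⟨hs, hsh, hp3⟩ := hP p (by omega)
  have hp3r : (3 : ℝ) ≤ p := by exact_mod_cast hp3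
  have hp0 : (0 : ℝ) < p := by linarith
  have hpA : (1 : ℝ) ≤ (p : ℝ) ^ A := one_le_pow₀ (by linarith)
  set θ : ℝ := 1 / (10 * (p : ℝ) ^ A) with hθ
  have hθ1 : θ ≤ 1 / 10 := by
    rw [hθ]
    apply one_div_le_one_div_of_le (by norm_num)
    linarith
  have hθ0 : 0 ≤ θ := by positivity
  have hB0 : 0 ≤ B := (abs_nonneg _).trans (hB 0)
  have himg := hsh.image hp3 (le_refl b0) h01 h11
  have hsub : Set.Ioc b0 b1 ⊆ Set.Icc b0 (b0 + 1) := fun x hx => ⟨hx.1.le, hx.2.trans h11⟩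
  have hder : ∀ x ∈ Set.Ioc b0 b1, HasDerivWithinAt (fun t => Real.log (Real.exp t * (Bs.b : ℝ) ^ p + gr' p))
      (Real.exp (Real.log Bs.b * p + x) / (Real.exp (Real.log Bs.b * p + x) + gr' p)) (Set.Ioc b0 b1) x :=
    fun x hx => (hsh.der x (hsub hx)).hasDerivWithinAt
  have hinj : Set.InjOn (fun t => Real.log (Real.exp t * (Bs.b : ℝ) ^ p + gr' p)) (Set.Ioc b0 b1) :=
    (hsh.strict hp3).injOn.mono hsub
  have hcov := integral_image_eq_integral_abs_deriv_smul measurableSet_Ioc hder hinj F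
  rw [himg] at hcov
  have hyp : ∀ t, Real.log (Real.exp t * (Bs.b : ℝ) ^ p + gr' p) = yp p t := fun t => rfl
  simp only [hyp] at hcov
  have hint : IntegrableOn (fun t => F (yp p t)) (Set.Ioc b0 b1) :=
    intOn_of_bdd (F := fun t => F (yp p t)) (hF.comp (measurable_yp p)) (B := B) (fun t => hB _) _ _
  set D : ℝ → ℝ := fun x => |Real.exp (Real.log Bs.b * p + x) / (Real.exp (Real.log Bs.b * p + x) + gr' p)| with hD
  have hDm : Measurable D := by
    apply Measurable.abs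
    apply Measurable.div
    · exact Real.measurable_exp.comp (measurable_const.add measurable_id)
    · exact (Real.measurable_exp.comp (measurable_const.add measurable_id)).add_const _
  have hD1 : ∀ x ∈ Set.Ioc b0 b1, |D x - 1| ≤ 2 * θ := by
    intro x hx
    obtain ⟨_, g2, g3⟩ := exp_yp hθ1 hs hx.1.le
    have hE := exp_shift (α := (Bs.b : ℝ)) hb p x
    simp only [hD]
    rw [← hE]
    set E := Real.exp x * (Bs.b : ℝ) ^ p with hEd
    have hE0 : 0 < E := by positivity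
    rw [abs_of_pos (div_pos hE0 g3)]
    have e1 : E / (E + gr' p) - 1 = -(gr' p) / (E + gr' p) := by field_simp; ring
    rw [e1, abs_div, abs_neg, abs_of_pos g3, div_le_iff₀ g3]
    have h5 := neg_abs_le (gr' p)
    have h6 : θ * E ≤ 1 / 10 * E := mul_le_mul_of_nonneg_right hθ1 hE0.le
    have h7 : E / 2 ≤ E + gr' p := by linarith
    calc |gr' p| ≤ θ * E := g2
      _ = 2 * θ * (E / 2) := by ring
      _ ≤ 2 * θ * (E + gr' p) := mul_le_mul_of_nonneg_left h7 (by positivity)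
  -- first difference
  have h1 : |(∫ t in Set.Ioc b0 b1, F (yp p t)) - ∫ x in Set.Ioc b0 b1, D x • F (yp p x)| ≤ B * (2 * θ) := by
    have hint2 : IntegrableOn (fun x => D x • F (yp p x)) (Set.Ioc b0 b1) := by
      refine Measure.integrableOn_of_bounded (M := (1 + 2 * θ) * B) (by simp)
        ((hDm.mul (hF.comp (measurable_yp p))).aestronglyMeasurable) ?_
      rw [ae_restrict_iff' measurableSet_Ioc]
      refine Eventually.of_forall fun x hx => ?_
      rw [smul_eq_mul, norm_mul, Real.norm_eq_abs, Real.norm_eq_abs]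
      have g1 := hD1 x hx
      have g2 : |D x| ≤ 1 + 2 * θ := by
        rw [abs_le] at g1 ⊢
        constructor <;> linarith [g1.1, g1.2]
      exact mul_le_mul g2 (hB _) (abs_nonneg _) (by positivity)
    rw [← integral_sub hint hint2]
    have h2 := abs_setint_le (F := fun x => F (yp p x) - D x • F (yp p x)) (B := B * (2 * θ)) h01 (fun x hx => by
      have g1 := hD1 x hx
      have e1 : F (yp p x) - D x • F (yp p x) = -(D x - 1) * F (yp p x) := by rw [smul_eq_mul]; ring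
      simp only [e1]
      rw [abs_mul, abs_neg]
      calc |D x - 1| * |F (yp p x)| ≤ (2 * θ) * B := mul_le_mul g1 (hB _) (abs_nonneg _) (by positivity)
        _ = _ := mul_comm _ _)
    refine h2.trans ?_
    have h3 : b1 - b0 ≤ 1 := by linarith
    calc B * (2 * θ) * (b1 - b0) ≤ B * (2 * θ) * 1 := mul_le_mul_of_nonneg_left h3 (by positivity)
      _ = _ := mul_one _
  -- second difference
  have h2 : |(∫ u in Set.Ioc (yp p b0) (yp p b1), F u) -
      ∫ u in Set.Ioc (b0 + p * Real.log Bs.b) (b1 + p * Real.log Bs.b), F u| ≤ B * (4 * θ) := by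
    have n0 := abs_le.1 (yp_near hθ1 hs (le_refl b0))
    have n1 := abs_le.1 (yp_near hθ1 hs h01)
    have m1 := (yp_lip hθ1 hs (le_refl b0) h01).1
    have i : ∀ x y : ℝ, IntervalIntegrable F volume x y := fun x y =>
      ⟨intOn_of_bdd hF hB _ _, intOn_of_bdd hF hB _ _⟩
    rw [← intervalIntegral.integral_of_le m1, ← intervalIntegral.integral_of_le (by linarith)]
    have e1 : (∫ u in (yp p b0)..(yp p b1), F u) - ∫ u in (b0 + p * Real.log Bs.b)..(b1 + p * Real.log Bs.b), F u =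
        (∫ u in (yp p b0)..(b0 + p * Real.log Bs.b), F u) - ∫ u in (yp p b1)..(b1 + p * Real.log Bs.b), F u := by
      have g1 := intervalIntegral.integral_add_adjacent_intervals (i (yp p b0) (yp p b1))
        (i (yp p b1) (b1 + p * Real.log Bs.b))
      have g2 := intervalIntegral.integral_add_adjacent_intervals (i (yp p b0) (b0 + p * Real.log Bs.b))
        (i (b0 + p * Real.log Bs.b) (b1 + p * Real.log Bs.b))
      linarith
    rw [e1]
    have bd : ∀ x y : ℝ, |∫ u in x..y, F u| ≤ B * |y - x| := fun x y => by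
      have := intervalIntegral.norm_integral_le_of_norm_le_const (a := x) (b := y) (f := F) (C := B)
        (fun u _ => by rw [Real.norm_eq_abs]; exact hB u)
      rwa [Real.norm_eq_abs] at this
    have d0 := bd (yp p b0) (b0 + p * Real.log Bs.b)
    have d1 := bd (yp p b1) (b1 + p * Real.log Bs.b)
    have q0 : |b0 + p * Real.log Bs.b - yp p b0| ≤ 2 * θ := by
      rw [abs_le]; constructor <;> linarith [n0.1, n0.2]
    have q1 : |b1 + p * Real.log Bs.b - yp p b1| ≤ 2 * θ := by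
      rw [abs_le]; constructor <;> linarith [n1.1, n1.2]
    have r0 := mul_le_mul_of_nonneg_left q0 hB0
    have r1 := mul_le_mul_of_nonneg_left q1 hB0
    have := abs_sub (∫ u in (yp p b0)..(b0 + p * Real.log Bs.b), F u) (∫ u in (yp p b1)..(b1 + p * Real.log Bs.b), F u)
    linarith
  -- the shift
  have h3 : ∫ t in Set.Ioc b0 b1, F (t + p * Real.log Bs.b) =
      ∫ u in Set.Ioc (b0 + p * Real.log Bs.b) (b1 + p * Real.log Bs.b), F u := by
    rw [← intervalIntegral.integral_of_le h01, ← intervalIntegral.integral_of_le (by linarith),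
      intervalIntegral.integral_comp_add_right]
  rw [h3]
  rw [hcov] at h2
  have hD' : (∫ x in Set.Ioc b0 b1, |Real.exp (Real.log Bs.b * p + x) / (Real.exp (Real.log Bs.b * p + x) + gr' p)| •
      F (yp p x)) = ∫ x in Set.Ioc b0 b1, D x • F (yp p x) := rfl
  rw [hD'] at h2
  have h4 := abs_sub_le (∫ t in Set.Ioc b0 b1, F (yp p t)) (∫ x in Set.Ioc b0 b1, D x • F (yp p x))
    (∫ u in Set.Ioc (b0 + p * Real.log Bs.b) (b1 + p * Real.log Bs.b), F u)
  have h5 : B * (2 * θ) + B * (4 * θ) ≤ B * (1 / (p : ℝ) ^ A) := by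
    have h6 : 1 / (p : ℝ) ^ A = 10 * θ := by rw [hθ]; field_simp
    rw [h6]
    nlinarith [mul_nonneg hB0 hθ0]
  linarith

/-- the values of a perturbed prefix are determined by a finer prefix, off a small set -/
lemma bad (g' : ℝ) {r r' : ℕ} (hr : r ≤ r') (b0 : ℝ) : ∃ (E : Set ℝ) (ψ : ℕ → ℕ), MeasurableSet E ∧
    (∀ t ∈ Set.Ioc b0 (b0 + 1), t ∉ E → ⌈Real.exp t * (Bs.b : ℝ) ^ r + g'⌉₊ - 1 = ψ (NN (t + r' * Real.log Bs.b))) ∧
    volume E ≤ ENNReal.ofReal ((Real.exp (b0 + 1) * (Bs.b : ℝ) ^ r + |g'| + 2) *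
      (Real.exp (-b0) / (Bs.b : ℝ) ^ r')) := by
  have hbs0 := bs_pos
  set Mx := ⌊Real.exp (b0 + 1) * (Bs.b : ℝ) ^ r + 1 + |g'|⌋₊ with hMx
  set δ := Real.exp (-b0) / (Bs.b : ℝ) ^ r' with hδ
  have hδ0 : 0 ≤ δ := by positivity
  have hbr : (0 : ℝ) < (Bs.b : ℝ) ^ r := by positivity
  have hbr' : (0 : ℝ) < (Bs.b : ℝ) ^ r' := by positivity
  set τ : ℕ → ℝ := fun M => Real.log (((M : ℝ) - g') / (Bs.b : ℝ) ^ r) with hτ
  refine ⟨⋃ M ∈ Finset.range (Mx + 1), Set.Icc (τ M - δ) (τ M),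
    fun n => ⌈((n : ℝ) + 1) * ((Bs.b : ℝ) ^ r / (Bs.b : ℝ) ^ r') + g'⌉₊ - 1, ?_, ?_, ?_⟩
  · exact Finset.measurableSet_biUnion _ fun M _ => measurableSet_Icc
  · intro t ht htE
    by_contra hne
    apply htE
    obtain ⟨n1, n2⟩ := NN_bounds' (t + r' * Real.log Bs.b)
    rw [exp_add_bs] at n1 n2
    set n := NN (t + r' * Real.log Bs.b) with hn
    set x := Real.exp t * (Bs.b : ℝ) ^ r + g' with hx
    set X := ((n : ℝ) + 1) * ((Bs.b : ℝ) ^ r / (Bs.b : ℝ) ^ r') + g' with hX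
    have hxX : x ≤ X := by
      have h1 : Real.exp t * (Bs.b : ℝ) ^ r = Real.exp t * (Bs.b : ℝ) ^ r' * ((Bs.b : ℝ) ^ r / (Bs.b : ℝ) ^ r') := by
        field_simp
      rw [hx, hX, h1]
      have h2 : (0 : ℝ) ≤ (Bs.b : ℝ) ^ r / (Bs.b : ℝ) ^ r' := by positivity
      have h3 := mul_le_mul_of_nonneg_right n2 h2
      linarith
    have hX2 : X ≤ Real.exp t * (Bs.b : ℝ) ^ r + (Bs.b : ℝ) ^ r / (Bs.b : ℝ) ^ r' + g' := by
      have h1 : Real.exp t * (Bs.b : ℝ) ^ r = Real.exp t * (Bs.b : ℝ) ^ r' * ((Bs.b : ℝ) ^ r / (Bs.b : ℝ) ^ r') := by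
        field_simp
      rw [hX, h1]
      have h2 : (0 : ℝ) ≤ (Bs.b : ℝ) ^ r / (Bs.b : ℝ) ^ r' := by positivity
      have h3 := mul_le_mul_of_nonneg_right n1.le h2
      linarith
    have hc := Nat.ceil_mono hxX
    set M := ⌈X⌉₊ - 1 with hM
    have hM1 : ⌈x⌉₊ ≤ M ∧ M < ⌈X⌉₊ := by
      have : ⌈x⌉₊ - 1 ≠ ⌈X⌉₊ - 1 := hne
      omega
    have hxM : x ≤ M := Nat.ceil_le.1 hM1.1
    have hMX : (M : ℝ) < X := Nat.lt_ceil.1 hM1.2
    have hrr : (Bs.b : ℝ) ^ r / (Bs.b : ℝ) ^ r' ≤ 1 := by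
      rw [div_le_one hbr']
      exact pow_le_pow_right₀ one_le_bsr hr
    have hMle : M ≤ Mx := by
      rw [hMx]
      apply Nat.le_floor
      have h1 : Real.exp t * (Bs.b : ℝ) ^ r ≤ Real.exp (b0 + 1) * (Bs.b : ℝ) ^ r := by
        have := Real.exp_le_exp.2 ht.2
        gcongr
      have := le_abs_self g'
      linarith
    rw [Set.mem_iUnion₂]
    refine ⟨M, Finset.mem_range.2 (by omega), ?_⟩
    -- the position of the jump
    have h4 : Real.exp t ≤ ((M : ℝ) - g') / (Bs.b : ℝ) ^ r := by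
      rw [le_div_iff₀ hbr]
      linarith
    have hpos : 0 < ((M : ℝ) - g') / (Bs.b : ℝ) ^ r := lt_of_lt_of_le (Real.exp_pos t) h4
    have h5 : ((M : ℝ) - g') / (Bs.b : ℝ) ^ r ≤ Real.exp t + 1 / (Bs.b : ℝ) ^ r' := by
      rw [div_le_iff₀ hbr]
      have e1 : (Real.exp t + 1 / (Bs.b : ℝ) ^ r') * (Bs.b : ℝ) ^ r =
          Real.exp t * (Bs.b : ℝ) ^ r + (Bs.b : ℝ) ^ r / (Bs.b : ℝ) ^ r' := by ring
      rw [e1]
      linarith
    have h6 : t ≤ τ M := by
      simp only [hτ]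
      rwa [Real.le_log_iff_exp_le hpos]
    have h7 : τ M ≤ t + δ := by
      simp only [hτ]
      rw [Real.log_le_iff_le_exp hpos]
      refine h5.trans ?_
      rw [Real.exp_add]
      have h8 := Real.add_one_le_exp δ
      have h9 : 1 / (Bs.b : ℝ) ^ r' ≤ Real.exp t * δ := by
        rw [hδ, ← mul_div_assoc, ← Real.exp_add]
        apply div_le_div_of_nonneg_right _ hbr'.le
        exact Real.one_le_exp (by linarith [ht.1])
      have h10 := mul_le_mul_of_nonneg_left h8 (Real.exp_pos t).le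
      linarith
    exact ⟨by linarith, h6⟩
  · calc volume (⋃ M ∈ Finset.range (Mx + 1), Set.Icc (τ M - δ) (τ M)) ≤
          ∑ M ∈ Finset.range (Mx + 1), volume (Set.Icc (τ M - δ) (τ M)) := measure_biUnion_finset_le _ _
      _ = ∑ M ∈ Finset.range (Mx + 1), ENNReal.ofReal δ := by
          refine Finset.sum_congr rfl fun M _ => ?_
          rw [Real.volume_Icc]
          congr 1
          ring
      _ = ENNReal.ofReal ((Mx + 1 : ℕ) * δ) := by
          rw [Finset.sum_const, Finset.card_range, nsmul_eq_mul, ENNReal.ofReal_mul (by positivity),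
            ENNReal.ofReal_natCast]
      _ ≤ _ := by
          apply ENNReal.ofReal_le_ofReal
          apply mul_le_mul_of_nonneg_right _ hδ0
          have h1 : (Mx : ℝ) ≤ Real.exp (b0 + 1) * (Bs.b : ℝ) ^ r + 1 + |g'| := Nat.floor_le (by positivity)
          push_cast
          linarith

end Pool.Agent.H176C
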