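import Mathlib
import Pool.Agent.H176C.Gen1

set_option autoImplicit false

/-!
# Integer perturbations: integrals against functions of the leading digits, and the system
-/

namespace Pool.Agent.H176C

open Pool.Agent.H176B
open Pool.Agent.H176M (SilS rr rr_facts NN_bounds' NN_mono log_div_sq_ge intOn_of_bdd abs_setint_le)
open Finset Filter Topology MeasureTheory
open Pool.Agent.H305R2 (roughPart NN ff LL LL_eq LL_cont LL_nonneg LL_le_one ff_nonneg ff_le_one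
  measurable_ff measurable_NN)
open Pool.Agent.TH888.R (Sys wt)

lemma off_bad {D : ℝ → ℝ} {M μ b0 b1 : ℝ} {E : Set ℝ} (hE : MeasurableSet E) (hμ0 : 0 ≤ μ)
    (hμ : volume E ≤ ENNReal.ofReal μ) (hM : 0 ≤ M) (hD : ∀ t, |D t| ≤ M)
    (h0 : ∀ t ∈ Set.Ioc b0 b1, t ∉ E → D t = 0) : |∫ t in Set.Ioc b0 b1, D t| ≤ M * μ := by
  have h1 : ∫ t in Set.Ioc b0 b1, D t = ∫ t in Set.Ioc b0 b1, E.indicator D t := by
    refine setIntegral_congr_fun measurableSet_Ioc fun t ht => ?_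
    by_cases h : t ∈ E
    · simp only [Set.indicator_of_mem h]
    · simp only [Set.indicator_of_notMem h]
      exact h0 t ht h
  have hfin : volume (Set.Ioc b0 b1 ∩ E) ≤ ENNReal.ofReal μ :=
    (measure_mono Set.inter_subset_right).trans hμ
  rw [h1, setIntegral_indicator hE]
  have h2 := norm_setIntegral_le_of_norm_le_const (μ := volume) (s := Set.Ioc b0 b1 ∩ E) (f := D) (C := M)
    (lt_of_le_of_lt hfin ENNReal.ofReal_lt_top) (fun t _ => by rw [Real.norm_eq_abs]; exact hD t)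
  rw [Real.norm_eq_abs] at h2
  refine h2.trans (mul_le_mul_of_nonneg_left ?_ hM)
  rw [Measure.real]
  exact ENNReal.toReal_le_of_le_ofReal hμ0 hfin

variable [Bs] [Ptb]

/-- **The integral of the centred indicator against a function of the leading digits.** -/
theorem cond_int (hS : SilS) (ε : ℝ) (hε : 0 < ε) (hε1 : ε ≤ 1 / 12) (b0 : ℝ) (A : ℕ) :
    ∃ C : ℝ, 0 < C ∧ ∃ L₀ : ℕ, ∀ ℓ : ℕ, L₀ ≤ ℓ →
    rr ε ℓ ≤ ℓ ∧ (∀ t ∈ Set.Icc b0 (b0 + 1), 1 / (NN (t + rr ε ℓ * Real.log Bs.b) : ℝ) ≤ 1 / (ℓ : ℝ) ^ (A + 1)) ∧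
    ∀ b1 : ℝ, b0 ≤ b1 → b1 ≤ b0 + 1 → ∀ (φ : ℕ → ℝ) (B : ℝ),
    (∀ n, |φ n| ≤ B) →
    |∫ t in Set.Ioc b0 b1, φ (NN (t + rr ε ℓ * Real.log Bs.b)) * (fp ℓ t - lp ℓ t)| ≤
      C * (B / (ℓ : ℝ) ^ A) + C * (Real.log ℓ / (ℓ : ℝ) ^ 2) *
        ∫ t in Set.Ioc b0 b1, |φ (NN (t + rr ε ℓ * Real.log Bs.b))| := by
  have hbs0 := bs_pos
  have hb : (0 : ℝ) < Bs.b := bsr_pos
  obtain ⟨C1, hC1, L1, h1⟩ := Pool.Agent.H176B.cond_int hS ε hε hε1 b0 A
  obtain ⟨C2, hC2, L2, h2⟩ := Pool.Agent.H176B.cond_int hS (ε / 2) (by linarith) (by linarith) b0 A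
  obtain ⟨P3, hP33, h3⟩ := cov b0 A
  have hexp : ∀ (K : ℝ), 0 < K → ∀ᶠ ℓ : ℕ in atTop, K * (ℓ : ℝ) ^ A ≤ (Bs.b : ℝ) ^ ((ε / 2 : ℝ) * ℓ) := by
    intro K hK
    have h1 := (isLittleO_pow_exp_pos_mul_atTop A (b := ε / 2 * Real.log Bs.b)
      (by have := log_bs_pos; positivity)).bound (show (0 : ℝ) < 1 / K by positivity)
    have h2 := tendsto_natCast_atTop_atTop (R := ℝ) |>.eventually h1
    filter_upwards [h2] with ℓ hℓ
    rw [Real.norm_of_nonneg (by positivity), Real.norm_of_nonneg (by positivity), one_div,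
      inv_mul_eq_div, le_div_iff₀ hK] at hℓ
    have e1 : (Bs.b : ℝ) ^ ((ε / 2 : ℝ) * ℓ) = Real.exp (ε / 2 * Real.log Bs.b * ℓ) := by
      rw [Real.rpow_def_of_pos (by norm_num)]
      congr 1
      ring
    rw [e1]
    linarith
  set K0 : ℝ := (Real.exp 1 + 1 + 2 * Real.exp (-b0)) * Bs.b with hK0
  have hK00 : 0 < K0 := by positivity
  obtain ⟨L4, h4⟩ := eventually_atTop.1 ((hexp K0 hK00).and ((small b0 0).and
    ((tendsto_natCast_atTop_atTop (R := ℝ)).eventually_ge_atTop 3)))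
  refine ⟨C2 + 1 + (C2 + 1) * 4 + 3 * C2, by positivity, L1 + L2 + P3 + L4 + 3, fun ℓ hℓ => ?_⟩
  obtain ⟨q1, q2, _⟩ := h1 ℓ (by omega)
  obtain ⟨s1, _, s3⟩ := h2 ℓ (by omega)
  obtain ⟨l1, l2, l3⟩ := h4 ℓ (by omega)
  refine ⟨q1, q2, fun b1 h01 h11 φ B hB => ?_⟩
  have hB0 : 0 ≤ B := (abs_nonneg _).trans (hB 0)
  have hℓ0 : (0 : ℝ) < ℓ := by linarith
  have hcov := h3 ℓ (by omega) b1 h01 h11
  set r := rr ε ℓ with hr
  set r' := rr (ε / 2) ℓ with hr'
  set lam := Real.log Bs.b with hlam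
  rw [pow_zero, mul_one] at l2
  have hθ1 : (1 : ℝ) / 10 ≤ 1 / 10 := le_rfl
  set g := gr' ℓ with hg
  have hbl : (0 : ℝ) < (Bs.b : ℝ) ^ ℓ := by positivity
  have hbr : (0 : ℝ) < (Bs.b : ℝ) ^ r := by positivity
  have hbr' : (0 : ℝ) < (Bs.b : ℝ) ^ r' := by positivity
  -- the levels
  have hrr : r ≤ r' := by
    rw [hr, hr']
    unfold rr
    apply Nat.floor_mono
    nlinarith
  have hrr2 : (ε / 2) * ℓ - 1 ≤ (r' : ℝ) - r := by
    have g1 : ((r : ℕ) : ℝ) ≤ (2 / 3 - ε) * ℓ := by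
      rw [hr]; unfold rr
      exact Nat.floor_le (mul_nonneg (by linarith) hℓ0.le)
    have g2 : (2 / 3 - ε / 2) * (ℓ : ℝ) < r' + 1 := by
      rw [hr']; unfold rr
      exact Nat.lt_floor_add_one _
    nlinarith
  have hratio : (Bs.b : ℝ) ^ r / (Bs.b : ℝ) ^ r' ≤ Bs.b / (Bs.b : ℝ) ^ ((ε / 2 : ℝ) * ℓ) := by
    rw [div_le_div_iff₀ hbr' (by positivity), bs_pow_cast r, bs_pow_cast r',
      ← Real.rpow_add hb]
    have e1 : (Bs.b : ℝ) * (Bs.b : ℝ) ^ (r' : ℝ) = (Bs.b : ℝ) ^ (1 + (r' : ℝ)) := by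
      rw [Real.rpow_add hb, Real.rpow_one]
    rw [e1]
    apply Real.rpow_le_rpow_of_exponent_le (by norm_num)
    linarith
  -- the perturbation of the prefix
  set g' : ℝ := -(g / (Bs.b : ℝ) ^ ℓ * (Bs.b : ℝ) ^ r) with hg'
  have hg'b : |g'| ≤ Real.exp b0 * (Bs.b : ℝ) ^ r := by
    rw [hg', abs_neg, abs_mul, abs_div, abs_of_pos hbl, abs_of_pos hbr]
    apply mul_le_mul_of_nonneg_right _ hbr.le
    rw [div_le_iff₀ hbl]
    have : 0 < Real.exp b0 * (Bs.b : ℝ) ^ ℓ := by positivity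
    linarith
  obtain ⟨E, ψ, hE, hψ, hEμ⟩ := bad g' hrr b0
  set μ : ℝ := (Real.exp (b0 + 1) * (Bs.b : ℝ) ^ r + |g'| + 2) * (Real.exp (-b0) / (Bs.b : ℝ) ^ r') with hμ
  have hμ0 : 0 ≤ μ := by positivity
  have hμ1 : μ ≤ 1 / (ℓ : ℝ) ^ A := by
    have g1 : (1 : ℝ) ≤ (Bs.b : ℝ) ^ r := one_le_pow₀ one_le_bsr
    have g2 : Real.exp (b0 + 1) * (Bs.b : ℝ) ^ r + |g'| + 2 ≤
        (Real.exp (b0 + 1) + Real.exp b0 + 2) * (Bs.b : ℝ) ^ r := by nlinarith
    have g3 : μ ≤ (Real.exp 1 + 1 + 2 * Real.exp (-b0)) * ((Bs.b : ℝ) ^ r / (Bs.b : ℝ) ^ r') := by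
      calc μ ≤ (Real.exp (b0 + 1) + Real.exp b0 + 2) * (Bs.b : ℝ) ^ r * (Real.exp (-b0) / (Bs.b : ℝ) ^ r') :=
            mul_le_mul_of_nonneg_right g2 (by positivity)
        _ = (Real.exp (b0 + 1) * Real.exp (-b0) + Real.exp b0 * Real.exp (-b0) + 2 * Real.exp (-b0)) *
            ((Bs.b : ℝ) ^ r / (Bs.b : ℝ) ^ r') := by ring
        _ = _ := by
            rw [← Real.exp_add, ← Real.exp_add, show b0 + 1 + -b0 = 1 by ring, add_neg_cancel, Real.exp_zero]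
    refine g3.trans ((mul_le_mul_of_nonneg_left hratio (by positivity)).trans ?_)
    rw [← mul_div_assoc, ← hK0, div_le_div_iff₀ (by positivity) (by positivity), one_mul]
    exact l1
  -- the inverse phase function
  set v : ℝ → ℝ := fun u => Real.log (Real.exp u - g) - ℓ * lam with hv
  have hvm : Measurable v := (Real.measurable_log.comp (Real.measurable_exp.sub_const _)).sub_const _
  have hPm : Measurable (fun u => φ (NN (v u + r * lam))) :=
    measurable_from_nat.comp (measurable_NN.comp (hvm.add_const _))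
  set G : ℝ → ℝ := fun u => ff ℓ u - LL ℓ u with hG
  have hGm : Measurable G := (measurable_ff ℓ).sub (LL_cont ℓ).measurable
  have hG1 : ∀ u, |G u| ≤ 1 := fun u => by
    simp only [hG]
    rw [abs_le]
    constructor <;> linarith [ff_nonneg ℓ u, ff_le_one ℓ u, LL_nonneg ℓ u, LL_le_one ℓ u]
  have hvy : ∀ t ∈ Set.Ioc b0 b1, v (yp ℓ t) = t := by
    intro t ht
    obtain ⟨e1, _, _⟩ := exp_yp hθ1 l2 ht.1.le
    simp only [hv]
    rw [e1, add_sub_cancel_right, ← exp_add_bs, Real.log_exp]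
    ring
  have hvt : ∀ t ∈ Set.Ioc b0 b1, NN (v (t + ℓ * lam) + r * lam) = ⌈Real.exp t * (Bs.b : ℝ) ^ r + g'⌉₊ - 1 := by
    intro t ht
    have e0 : 0 < Real.exp t * (Bs.b : ℝ) ^ ℓ - g := by
      obtain ⟨_, e2, _⟩ := exp_yp hθ1 l2 ht.1.le
      have : 0 < Real.exp t * (Bs.b : ℝ) ^ ℓ := by positivity
      have := le_abs_self (gr' ℓ)
      linarith
    unfold NN
    simp only [hv]
    rw [exp_add_bs, Real.exp_sub, exp_add_bs, Real.exp_log e0, mul_comm (ℓ : ℝ) lam, mul_comm lam (ℓ : ℝ)]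
    have e3 : Real.exp (ℓ * lam) = (Bs.b : ℝ) ^ ℓ := by
      have := exp_add_bs 0 ℓ
      rw [zero_add, Real.exp_zero, one_mul] at this
      exact this
    rw [e3]
    congr 2
    rw [hg']
    field_simp
    ring
  -- the first change of variables
  set F1 : ℝ → ℝ := fun u => φ (NN (v u + r * lam)) * G u with hF1
  have hF1m : Measurable F1 := hPm.mul hGm
  have hF1b : ∀ u, |F1 u| ≤ B := fun u => by
    simp only [hF1]
    rw [abs_mul]
    calc _ ≤ B * 1 := mul_le_mul (hB _) (hG1 u) (abs_nonneg _) hB0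
      _ = B := mul_one B
  have c1 := hcov F1 B hF1m hF1b
  have c2 := hcov (fun u => |φ (NN (v u + r * lam))|) B hPm.abs (fun u => by rw [abs_abs]; exact hB _)
  have e1 : ∫ t in Set.Ioc b0 b1, F1 (yp ℓ t) =
      ∫ t in Set.Ioc b0 b1, φ (NN (t + r * lam)) * (fp ℓ t - lp ℓ t) := by
    refine setIntegral_congr_fun measurableSet_Ioc fun t ht => ?_
    simp only [hF1, hG]
    rw [hvy t ht, fp_eq hθ1 l2 ht.1.le]
    rfl
  have e2 : ∫ t in Set.Ioc b0 b1, |φ (NN (v (yp ℓ t) + r * lam))| =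
      ∫ t in Set.Ioc b0 b1, |φ (NN (t + r * lam))| := by
    refine setIntegral_congr_fun measurableSet_Ioc fun t ht => ?_
    show |φ (NN (v (yp ℓ t) + r * lam))| = |φ (NN (t + r * lam))|
    rw [hvy t ht]
  rw [e1] at c1
  rw [e2] at c2
  -- the finer prefix
  set X : ℝ → ℝ := fun t => φ (ψ (NN (t + r' * lam))) with hX
  have hXm : Measurable X := (measurable_from_nat (f := fun n => φ (ψ n))).comp
    (measurable_NN.comp (measurable_id.add_const _))
  have hXb : ∀ t, |X t| ≤ B := fun t => hB _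
  have hPm' : Measurable (fun t => φ (NN (v (t + ℓ * lam) + r * lam))) :=
    hPm.comp (measurable_id.add_const (ℓ * lam))
  have d1 : |∫ t in Set.Ioc b0 b1, (F1 (t + ℓ * lam) - X t * G (t + ℓ * lam))| ≤ (2 * B) * μ := by
    refine off_bad hE hμ0 hEμ (by positivity) (fun t => ?_) (fun t ht htE => ?_)
    · have g1 := hF1b (t + ℓ * lam)
      have g2 : |X t * G (t + ℓ * lam)| ≤ B := by
        rw [abs_mul]
        calc _ ≤ B * 1 := mul_le_mul (hXb t) (hG1 _) (abs_nonneg _) hB0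
          _ = B := mul_one B
      have := abs_sub (F1 (t + ℓ * lam)) (X t * G (t + ℓ * lam))
      linarith
    · simp only [hF1, hX]
      rw [hvt t ht, hψ t ⟨ht.1, ht.2.trans h11⟩ htE]
      ring
  have d2 : |∫ t in Set.Ioc b0 b1, (|φ (NN (v (t + ℓ * lam) + r * lam))| - |X t|)| ≤ (2 * B) * μ := by
    refine off_bad hE hμ0 hEμ (by positivity) (fun t => ?_) (fun t ht htE => ?_)
    · have g1 := hB (NN (v (t + ℓ * lam) + r * lam))
      have g2 := hXb t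
      have := abs_sub |φ (NN (v (t + ℓ * lam) + r * lam))| |X t|
      rw [abs_abs, abs_abs] at this
      linarith
    · simp only [hX]
      rw [hvt t ht, hψ t ⟨ht.1, ht.2.trans h11⟩ htE]
      ring
  have i1 : IntegrableOn (fun t => F1 (t + ℓ * lam)) (Set.Ioc b0 b1) :=
    intOn_of_bdd (F := fun t => F1 (t + ℓ * lam)) (hF1m.comp (measurable_id.add_const _)) (B := B)
      (fun t => hF1b _) _ _
  have i2 : IntegrableOn (fun t => X t * G (t + ℓ * lam)) (Set.Ioc b0 b1) :=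
    intOn_of_bdd (F := fun t => X t * G (t + ℓ * lam)) (hXm.mul (hGm.comp (measurable_id.add_const _))) (B := B)
      (fun t => by
        rw [abs_mul]
        calc _ ≤ B * 1 := mul_le_mul (hXb t) (hG1 _) (abs_nonneg _) hB0
          _ = B := mul_one B) _ _
  have i3 : IntegrableOn (fun t => |φ (NN (v (t + ℓ * lam) + r * lam))|) (Set.Ioc b0 b1) :=
    intOn_of_bdd (F := fun t => |φ (NN (v (t + ℓ * lam) + r * lam))|) hPm'.abs (B := B)
      (fun t => by rw [abs_abs]; exact hB _) _ _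
  have i4 : IntegrableOn (fun t => |X t|) (Set.Ioc b0 b1) :=
    intOn_of_bdd (F := fun t => |X t|) hXm.abs (B := B) (fun t => by rw [abs_abs]; exact hXb t) _ _
  rw [integral_sub i1 i2] at d1
  rw [integral_sub i3 i4] at d2
  have m1 := s3 b1 h01 h11 (fun n => φ (ψ n)) B (fun n => hB _)
  have m1' : |∫ t in Set.Ioc b0 b1, X t * G (t + ℓ * lam)| ≤
      C2 * (B / (ℓ : ℝ) ^ A) + C2 * (Real.log ℓ / (ℓ : ℝ) ^ 2) * ∫ t in Set.Ioc b0 b1, |X t| := m1
  -- assembling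
  set I := ∫ t in Set.Ioc b0 b1, φ (NN (t + r * lam)) * (fp ℓ t - lp ℓ t) with hI
  set J := ∫ t in Set.Ioc b0 b1, |φ (NN (t + r * lam))| with hJ
  set I1 := ∫ t in Set.Ioc b0 b1, F1 (t + ℓ * lam) with hI1
  set I2 := ∫ t in Set.Ioc b0 b1, X t * G (t + ℓ * lam) with hI2
  set J1 := ∫ t in Set.Ioc b0 b1, |φ (NN (v (t + ℓ * lam) + r * lam))| with hJ1
  set J2 := ∫ t in Set.Ioc b0 b1, |X t| with hJ2
  have hBA : B * (1 / (ℓ : ℝ) ^ A) = B / (ℓ : ℝ) ^ A := by ring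
  rw [hBA] at c1 c2
  set T := B / (ℓ : ℝ) ^ A with hT
  have hT0 : 0 ≤ T := by positivity
  have hμT : (2 * B) * μ ≤ 2 * T := by
    have := mul_le_mul_of_nonneg_left hμ1 (show 0 ≤ 2 * B by positivity)
    calc (2 * B) * μ ≤ (2 * B) * (1 / (ℓ : ℝ) ^ A) := this
      _ = 2 * T := by rw [hT]; ring
  set Lg := Real.log ℓ / (ℓ : ℝ) ^ 2 with hLg
  have hLg0 : 0 ≤ Lg := div_nonneg (Real.log_nonneg (by linarith)) (by positivity)
  have hLg1 : Lg ≤ 1 := by
    rw [hLg, div_le_one (by positivity)]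
    have := Real.log_le_sub_one_of_pos hℓ0
    nlinarith
  have hJ2b : J2 ≤ J + 3 * T := by
    have a1 := (abs_le.1 d2).1
    have a2 := (abs_le.1 c2).1
    linarith
  have a3 : |I| ≤ |I2| + 3 * T := by
    have b1' := abs_sub_abs_le_abs_sub I I1
    have b2' := abs_sub_abs_le_abs_sub I1 I2
    linarith
  have a4 : C2 * Lg * J2 ≤ C2 * Lg * J + 3 * C2 * T := by
    have g1 : C2 * Lg * J2 ≤ C2 * Lg * (J + 3 * T) := mul_le_mul_of_nonneg_left hJ2b (by positivity)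
    have g2 : C2 * Lg * (3 * T) ≤ C2 * 1 * (3 * T) := by gcongr
    linarith
  have hJ0 : 0 ≤ J := setIntegral_nonneg measurableSet_Ioc fun u _ => abs_nonneg _
  have hfin : |I| ≤ (C2 + 3 + 3 * C2) * T + C2 * Lg * J := by linarith
  refine hfin.trans (add_le_add ?_ ?_)
  · apply mul_le_mul_of_nonneg_right _ hT0
    linarith
  · apply mul_le_mul_of_nonneg_right _ hJ0
    apply mul_le_mul_of_nonneg_right _ hLg0
    linarith

lemma sys_congr {Ω : Type*} [MeasurableSpace Ω] {μ : Measure Ω} {f f' m : ℕ → Ω → ℝ} {c : Ω → ℝ}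
    (h : Sys μ f m c) (hm : ∀ q, Measurable (f' q)) (h01 : ∀ q x, f' q x = 0 ∨ f' q x = 1) {P0 : ℕ}
    (he : ∀ q ≥ P0, ∀ᵐ x ∂μ, f' q x = f q x) : Sys μ f' m c where
  fm := hm
  mm := h.mm
  f01 := h01
  m0 := h.m0
  m1 := h.m1
  mean := h.mean
  cb := h.cb
  row := by
    obtain ⟨κ, C, hκ, hC, P, hP3, h1, h2⟩ := h.row
    refine ⟨κ, C, hκ, hC, P + P0, by omega, fun q hq hqp => ?_, fun q hq hqp T hT => ?_⟩
    · have e : ∫ x, (f' q x - m q x) ^ 2 ∂μ = ∫ x, (f q x - m q x) ^ 2 ∂μ := integral_congr_ae (by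
        filter_upwards [he q (by omega)] with x hx
        rw [hx])
      rw [e]
      exact h1 q (by omega) hqp
    · refine le_trans (le_of_eq (Finset.sum_congr rfl fun p hp => ?_)) (h2 q (by omega) hqp T fun p hp => ?_)
      · obtain ⟨a1, a2, a3⟩ := hT p hp
        congr 1
        refine integral_congr_ae ?_
        filter_upwards [he q (by omega), he p (by omega)] with x hx hx'
        rw [hx, hx']
      · obtain ⟨a1, a2, a3⟩ := hT p hp
        exact ⟨a1, by omega, a3⟩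
  one := by
    obtain ⟨K, hK, P, h1⟩ := h.one
    refine ⟨K, hK, P + P0, fun q hq hqp => ?_⟩
    have e : ∫ x, f' q x ∂μ = ∫ x, f q x ∂μ := integral_congr_ae (by
      filter_upwards [he q (by omega)] with x hx
      rw [hx])
    rw [e]
    exact h1 q (by omega) hqp

/-- the system -/
lemma sys_bs (b0 : ℝ) : Sys (volume.restrict (Set.Ioc b0 (b0 + 1))) (fun p t => fp p t) (fun p t => lp p t)
    (fun _ => Real.exp Real.eulerMascheroniConstant / Real.log Bs.b) := by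
  have h := Pool.Agent.TH888.R.sys_ysh (α := (Bs.b : ℝ)) (κ := Ptb.κ) (C := Ptb.C) (g := gr')
    one_lt_bsr Ptb.κ0 Ptb.κb gr'_bound
    (Pool.Agent.TH888.R.near_base (b := Bs.b) two_le_bs Ptb.κ0 Ptb.κb gr'_bound) b0
  obtain ⟨P, hP⟩ := eventually_atTop.1 (small b0 0)
  refine sys_congr h (fun q => measurable_fp q) (fun q x => fp_01 q x) (P0 := P) fun q hq => ?_
  rw [ae_restrict_iff' measurableSet_Ioc]
  refine Eventually.of_forall fun t ht => ?_
  have h1 := hP q hq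
  rw [pow_zero, mul_one] at h1
  exact fp_eq le_rfl h1 ht.1.le

end Pool.Agent.H176C
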