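import Mathlib
import Pool.Agent.H176M.Pfx
import Pool.Agent.H176C.Cor

set_option autoImplicit false

/-!
# Functions of the leading digits
-/

namespace Pool.Agent.H176C

open Pool.Agent.H176B
open Pool.Agent.H176M (cell cells prefix_cell rr NN_bounds' NN_mono rr_facts log_div_sq_ge ii_of_bdd
  abs_int_le le_NN_iff LL_lip intOn_of_bdd abs_setint_le SilS silS Sys1 gr_set1 bigO_set1 bigO_all1 Pr
  mem_Pr card_Pr mertens_window vT vT_nonneg FN_meas exists_sup one_div_le_wt)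

open Finset Filter Topology MeasureTheory
open Pool.Agent.H305R2 (roughPart NN ff FF LL LL_eq LL_cont
  LL_nonneg LL_le_one ff_nonneg ff_le_one measurable_ff measurable_NN pr)
open Pool.Agent.TH888.R (wt wt_nonneg)
open Pool.Agent.W66S (moment_rows)

variable [Bs] [Ptb]

/-- `X` is a function of the digits up to level `r` -/
def PF (r : ℕ) (X : ℝ → ℝ) : Prop := ∃ F : ℕ → ℝ, ∀ u, X u = F (NN (u + r * Real.log Bs.b))

lemma PF.const (r : ℕ) (c : ℝ) : PF r (fun _ => c) := ⟨fun _ => c, fun _ => rfl⟩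

lemma PF.comp {r : ℕ} {X : ℝ → ℝ} (h : PF r X) (g : ℝ → ℝ) : PF r (fun u => g (X u)) := by
  have hbs0 := bs_pos
  obtain ⟨F, hF⟩ := h
  exact ⟨fun n => g (F n), fun u => by simp only [hF]⟩

lemma PF.comp₂ {r : ℕ} {X Y : ℝ → ℝ} (h : PF r X) (h' : PF r Y) (g : ℝ → ℝ → ℝ) : PF r (fun u => g (X u) (Y u)) := by
  have hbs0 := bs_pos
  obtain ⟨F, hF⟩ := h
  obtain ⟨G, hG⟩ := h'
  exact ⟨fun n => g (F n) (G n), fun u => by simp only [hF, hG]⟩

lemma PF.mul {r : ℕ} {X Y : ℝ → ℝ} (h : PF r X) (h' : PF r Y) : PF r (fun u => X u * Y u) :=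
  h.comp₂ h' (fun x y => x * y)

lemma PF.sub {r : ℕ} {X Y : ℝ → ℝ} (h : PF r X) (h' : PF r Y) : PF r (fun u => X u - Y u) :=
  h.comp₂ h' (fun x y => x - y)

lemma PF.mono {r r' : ℕ} {X : ℝ → ℝ} (h : PF r X) (hr : r ≤ r') : PF r' X := by
  have hbs0 := bs_pos
  obtain ⟨F, hF⟩ := h
  refine ⟨fun n => F (n / Bs.b ^ (r' - r)), fun u => ?_⟩
  have h1 := NN_div (u + r * Real.log Bs.b) (r' - r)
  have e : u + r * Real.log Bs.b + ((r' - r : ℕ) : ℝ) * Real.log Bs.b = u + r' * Real.log Bs.b := by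
    rw [Nat.cast_sub hr]; ring
  rw [e] at h1
  rw [hF, ← h1]

lemma PF.meas {r : ℕ} {X : ℝ → ℝ} (h : PF r X) : Measurable X := by
  have hbs0 := bs_pos
  obtain ⟨F, hF⟩ := h
  have : X = fun u => F (NN (u + r * Real.log Bs.b)) := funext hF
  rw [this]
  exact FN_meas F _

lemma PF.bdd {r : ℕ} {X : ℝ → ℝ} (h : PF r X) {B : ℝ} (hB : ∀ u, |X u| ≤ B) :
    ∃ F : ℕ → ℝ, (∀ n, |F n| ≤ B) ∧ ∀ u, X u = F (NN (u + r * Real.log Bs.b)) := by
  have hbs0 := bs_pos
  obtain ⟨F, hF⟩ := h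
  have hB0 : 0 ≤ B := (abs_nonneg _).trans (hB 0)
  refine ⟨fun n => max (-B) (min B (F n)), fun n => ?_, fun u => ?_⟩
  · rw [abs_le]
    exact ⟨le_max_left _ _, max_le (by linarith) (min_le_left _ _)⟩
  · have h1 := abs_le.1 (hB u)
    rw [hF u] at h1 ⊢
    show _ = max (-B) (min B (F (NN (u + r * Real.log Bs.b))))
    rw [min_eq_right h1.2, max_eq_right h1.1]

lemma PF.sum {r : ℕ} {ι : Type*} (s : Finset ι) {X : ι → ℝ → ℝ} (h : ∀ i ∈ s, PF r (X i)) :
    PF r (fun u => ∑ i ∈ s, X i u) := by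
  have hbs0 := bs_pos
  classical
  induction s using Finset.induction_on with
  | empty => simpa using PF.const r 0
  | insert i s hi ih =>
    simp only [sum_insert hi]
    exact (h i (mem_insert_self _ _)).comp₂ (ih fun j hj => h j (mem_insert_of_mem hj)) (fun x y => x + y)

lemma PF.prod {r : ℕ} {ι : Type*} (s : Finset ι) {X : ι → ℝ → ℝ} (h : ∀ i ∈ s, PF r (X i)) :
    PF r (fun u => ∏ i ∈ s, X i u) := by
  have hbs0 := bs_pos
  classical
  induction s using Finset.induction_on with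
  | empty => simpa using PF.const r 1
  | insert i s hi ih =>
    simp only [prod_insert hi]
    exact (h i (mem_insert_self _ _)).mul (ih fun j hj => h j (mem_insert_of_mem hj))

lemma PF.fp {p r : ℕ} (h : p ≤ r) : PF r (fun u => fp p u) :=
  ⟨fun n => if (roughPart p (((n / Bs.b ^ (r - p) : ℕ) : ℤ) + Ptb.g p).toNat).Prime then 1 else 0, fun u => fp_prefix h u⟩

lemma PF.cT {T : Finset ℕ} {r : ℕ} (h : ∀ p ∈ T, p ≤ r) : PF r (cT T) :=
  PF.sum T fun p hp => PF.fp (h p hp)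

lemma PF.cW {x y : ℝ} (hx : 0 ≤ x) (hy : 0 ≤ y) {r : ℕ} (h : ⌊y⌋₊ ≤ r) : PF r (Pool.Agent.H176C.cT (Pr x y)) :=
  PF.cT fun p hp => by
    rw [mem_Pr hx hy] at hp
    exact (Nat.le_floor hp.2.2).trans h

/-- **Joint correlations, for functions of the leading digits.** -/
theorem joint_pf (hS : SilS) (b0 : ℝ) (ρ : ℝ) (hρ0 : 0 ≤ ρ) (a b : ℕ → ℝ)
    (A k : ℕ) (h0 : ∀ i < k, 0 < a i ∧ a i < b i) (h1 : ∀ i j, i < j → j < k → 3 / 2 * b i < a j)
    (h2 : ∀ i < k, 3 / 2 * ρ < a i) : ∀ η : ℝ, 0 < η → ∀ᶠ z : ℝ in atTop,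
    ∀ T : ℕ → Finset ℕ, (∀ i < k, T i ⊆ Pr (a i * z) (b i * z)) →
    ∀ (X : ℝ → ℝ) (B : ℝ), PF ⌊ρ * z⌋₊ X → 0 < B → (∀ u, |X u| ≤ B) →
      |(∫ u in Set.Ioc b0 (b0 + 1), X u * ∏ i ∈ range k, cT (T i) u) -
        (∏ i ∈ range k, cc * vT (T i)) * ∫ u in Set.Ioc b0 (b0 + 1), X u| ≤
      η * (∏ i ∈ range k, vT (T i)) * ((∫ u in Set.Ioc b0 (b0 + 1), |X u|) + B / z ^ A) := by
  have hbs0 := bs_pos
  intro η hη
  filter_upwards [joint hS ρ hρ0 a b A k h0 h1 h2 (show b0 ≤ b0 + 1 by linarith) η hη] with z hz T hT X B hX hB hXB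
  obtain ⟨F, hF1, hF2⟩ := hX.bdd hXB
  have h3 := hz T hT (fun n => F n / B) (fun n => by
    rw [abs_div, abs_of_pos hB, div_le_one hB]
    exact hF1 n)
  unfold ZT at h3
  simp only [← hF2] at h3
  have e1 : ∀ u, X u / B * ∏ i ∈ range k, cT (T i) u = (1 / B) * (X u * ∏ i ∈ range k, cT (T i) u) := fun u => by
    ring
  have e2 : ∀ u, X u / B = (1 / B) * X u := fun u => by ring
  have e3 : ∀ u, |X u / B| = (1 / B) * |X u| := fun u => by rw [abs_div, abs_of_pos hB]; ring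
  simp only [e1] at h3
  simp only [e3] at h3
  simp only [e2] at h3
  rw [integral_const_mul, integral_const_mul, integral_const_mul] at h3
  set I1 := ∫ u in Set.Ioc b0 (b0 + 1), X u * ∏ i ∈ range k, cT (T i) u
  set I2 := ∫ u in Set.Ioc b0 (b0 + 1), X u
  set I3 := ∫ u in Set.Ioc b0 (b0 + 1), |X u|
  set P1 := ∏ i ∈ range k, cc * vT (T i)
  set P2 := ∏ i ∈ range k, vT (T i)
  have h4 : B * |1 / B * I1 - P1 * (1 / B * I2)| ≤ B * (η * P2 * (1 / B * I3 + 1 / z ^ A)) :=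
    mul_le_mul_of_nonneg_left h3 hB.le
  have e4 : B * |1 / B * I1 - P1 * (1 / B * I2)| = |I1 - P1 * I2| := by
    rw [← abs_of_pos hB, ← abs_mul, abs_of_pos hB]
    congr 1
    field_simp
  have e5 : B * (η * P2 * (1 / B * I3 + 1 / z ^ A)) = η * P2 * (I3 + B / z ^ A) := by
    field_simp
  rwa [e4, e5] at h4

/-- upper bounds -/
theorem joint_ub (hS : SilS) (b0 : ℝ) (ρ : ℝ) (hρ0 : 0 ≤ ρ) (a b : ℕ → ℝ)
    (A k : ℕ) (h0 : ∀ i < k, 0 < a i ∧ a i < b i) (h1 : ∀ i j, i < j → j < k → 3 / 2 * b i < a j)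
    (h2 : ∀ i < k, 3 / 2 * ρ < a i) : ∃ K : ℝ, 0 < K ∧ ∀ᶠ z : ℝ in atTop,
    ∀ (X : ℝ → ℝ) (B : ℝ), PF ⌊ρ * z⌋₊ X → 0 < B → (∀ u, 0 ≤ X u) → (∀ u, X u ≤ B) →
      ∫ u in Set.Ioc b0 (b0 + 1), X u * ∏ i ∈ range k, cT (Pr (a i * z) (b i * z)) u ≤
      K * ((∫ u in Set.Ioc b0 (b0 + 1), X u) + B / z ^ A) := by
  have hbs0 := bs_pos
  set Lv := ∏ i ∈ range k, Real.log (b i / a i) with hLv
  have hLv0 : 0 ≤ Lv := Finset.prod_nonneg fun i hi => by
    obtain ⟨ai, abi⟩ := h0 i (Finset.mem_range.1 hi)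
    exact Real.log_nonneg ((one_le_div ai).2 abi.le)
  have hv : Tendsto (fun z : ℝ => ∏ i ∈ Finset.range k, vT (Pr (a i * z) (b i * z))) atTop (𝓝 Lv) :=
    tendsto_finsetProd _ fun i hi => by
      obtain ⟨ai, abi⟩ := h0 i (Finset.mem_range.1 hi)
      exact mertens_window ai abi
  refine ⟨(cc ^ k + 1) * (Lv + 1), by have := cc_pos; positivity, ?_⟩
  filter_upwards [joint_pf hS b0 ρ hρ0 a b A k h0 h1 h2 1 one_pos,
    hv.eventually_le_const (show Lv < Lv + 1 by linarith), eventually_gt_atTop 0] with z hz1 hz2 hz0 X B hX hB hX0 hXB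
  have h3 := hz1 (fun i => Pr (a i * z) (b i * z)) (fun i _ => subset_rfl) X B hX hB
    (fun u => by rw [abs_of_nonneg (hX0 u)]; exact hXB u)
  have e1 : ∀ u, |X u| = X u := fun u => abs_of_nonneg (hX0 u)
  simp only [e1] at h3
  set I1 := ∫ u in Set.Ioc b0 (b0 + 1), X u * ∏ i ∈ range k, cT (Pr (a i * z) (b i * z)) u
  set I2 := ∫ u in Set.Ioc b0 (b0 + 1), X u with hI2
  have hI20 : 0 ≤ I2 := setIntegral_nonneg measurableSet_Ioc fun u _ => hX0 u
  set P2 := ∏ i ∈ range k, vT (Pr (a i * z) (b i * z)) with hP2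
  have hP20 : 0 ≤ P2 := prod_nonneg fun i _ => vT_nonneg _
  have hprodc : ∏ i ∈ range k, cc * vT (Pr (a i * z) (b i * z)) = cc ^ k * P2 := by
    rw [prod_mul_distrib, prod_const, card_range]
  rw [hprodc] at h3
  have h4 := (abs_le.1 h3).2
  have hBz : 0 ≤ B / z ^ A := by positivity
  have hck : 0 < cc ^ k := pow_pos cc_pos k
  have h5 : cc ^ k * P2 * I2 ≤ cc ^ k * P2 * (I2 + B / z ^ A) :=
    mul_le_mul_of_nonneg_left (by linarith) (by positivity)
  have h6 : (cc ^ k + 1) * P2 * (I2 + B / z ^ A) ≤ (cc ^ k + 1) * (Lv + 1) * (I2 + B / z ^ A) := by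
    apply mul_le_mul_of_nonneg_right _ (by linarith)
    exact mul_le_mul_of_nonneg_left hz2 (by linarith)
  nlinarith

/-- **One window, with a rate.** -/
theorem single (hS : SilS) (b0 : ℝ) (ρ : ℝ) {a b : ℝ} (ha : 0 < a) (hab : a < b)
    (A : ℕ) (h2 : 3 / 2 * ρ < a) : ∃ C : ℝ, 0 < C ∧ ∀ᶠ z : ℝ in atTop,
    ∀ (X : ℝ → ℝ) (B : ℝ), PF ⌊ρ * z⌋₊ X → 0 < B → (∀ u, |X u| ≤ B) →
      |∫ u in Set.Ioc b0 (b0 + 1), X u * (cT (Pr (a * z) (b * z)) u - cc * vT (Pr (a * z) (b * z)))| ≤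
      C * (1 / Real.log z) * ((∫ u in Set.Ioc b0 (b0 + 1), |X u|) + B / z ^ A) := by
  have hbs0 := bs_pos
  have hb : 0 < b := ha.trans hab
  set ε : ℝ := min (1 / 12) (2 / 3 - ρ / a) with hε
  have hLa : ρ / a < 2 / 3 := by rw [div_lt_iff₀ ha]; linarith
  have hε0 : 0 < ε := by rw [hε]; exact lt_min (by norm_num) (by linarith)
  have hε1 : ε ≤ 1 / 12 := min_le_left _ _
  have hε2 : ρ ≤ (2 / 3 - ε) * a := by
    have h3 : ε ≤ 2 / 3 - ρ / a := min_le_right _ _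
    have h4 : ρ / a ≤ 2 / 3 - ε := by linarith
    rwa [div_le_iff₀ ha] at h4
  obtain ⟨C, hC, L₀, hcond⟩ := cond_int hS ε hε0 hε1 b0 (A + 2)
  obtain ⟨K, hK, P, hmean⟩ := (sys_bs b0).mean
  have hmean' : ∀ᵐ u ∂(volume.restrict (Set.Ioc b0 (b0 + 1))), ∀ q ≥ P, q.Prime →
      |lp q u - cc * wt q| ≤ K * (1 / q) := hmean
  have hlr := Real.log_pos ((one_lt_div ha).2 hab)
  set l := Real.log (b / a) with hl
  have hv : Tendsto (fun z : ℝ => vT (Pr (a * z) (b * z))) atTop (𝓝 l) := mertens_window ha hab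
  have haz : Tendsto (fun z : ℝ => a * z) atTop atTop := tendsto_id.const_mul_atTop ha
  refine ⟨(C * (1 / a ^ A) * (1 / a) + C * (1 / a) + 2 * K) * (l + 1), by positivity, ?_⟩
  filter_upwards [hv.eventually_le_const (show l < l + 1 by linarith), eventually_gt_atTop 1,
    haz.eventually_ge_atTop ((L₀ : ℝ) + P + 3),
    eventually_ge_atTop ((1 / a) ^ 2)] with z hz1 hz2 hz5 hz6 X B hX hB hXB
  have hz0 : 0 < z := by linarith
  have haz0 : 0 < a * z := by positivity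
  have haz3 : 3 ≤ a * z := by
    have : (0 : ℝ) ≤ L₀ := Nat.cast_nonneg _
    have : (0 : ℝ) ≤ P := Nat.cast_nonneg _
    linarith
  have hbz0 : 0 < b * z := by positivity
  have hlz0 : 0 < Real.log z := Real.log_pos hz2
  obtain ⟨F, hF1, hF2⟩ := hX.bdd hXB
  set Q := Pr (a * z) (b * z) with hQ
  have hq : ∀ q ∈ Q, q.Prime ∧ a * z < q ∧ L₀ ≤ q ∧ P ≤ q ∧ 3 ≤ q := by
    intro q hq
    rw [hQ, mem_Pr haz0.le hbz0.le] at hq
    obtain ⟨c1, c2, c3⟩ := hq
    have c4 : ((L₀ + P + 3 : ℕ) : ℝ) ≤ q := by push_cast; linarith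
    have c5 : L₀ + P + 3 ≤ q := by exact_mod_cast c4
    exact ⟨c1, c2, by omega, by omega, by omega⟩
  have hXm : Measurable X := hX.meas
  set IA := ∫ u in Set.Ioc b0 (b0 + 1), |X u| with hIA
  have hIA0 : 0 ≤ IA := setIntegral_nonneg measurableSet_Ioc fun u _ => abs_nonneg _
  set T0 := IA + B / z ^ A with hT0
  have hzA : 0 < B / z ^ A := by positivity
  have hT00 : 0 < T0 := by linarith
  have iZa : IntegrableOn (fun u => |X u|) (Set.Ioc b0 (b0 + 1)) :=
    intOn_of_bdd (measurable_abs.comp hXm) (B := B)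
      (fun u => by rw [Function.comp_apply, abs_abs]; exact hXB u) _ _
  have iZg : ∀ q, IntegrableOn (fun u => X u * gc q u) (Set.Ioc b0 (b0 + 1)) := fun q =>
    intOn_of_bdd (F := fun u => X u * gc q u) (hXm.mul (gc_meas q)) (B := B) (fun u => by
      rw [abs_mul]
      calc |X u| * |gc q u| ≤ B * 1 :=
            mul_le_mul (hXB u) (gc_abs q u) (abs_nonneg _) hB.le
        _ = _ := mul_one _) _ _
  have hLm : ∀ q : ℕ, Measurable (fun u : ℝ => lp q u - cc * wt q) := fun q =>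
    (measurable_lp q).sub_const _
  have iZm : ∀ q : ℕ, IntegrableOn (fun u => X u * (lp q u - cc * wt q)) (Set.Ioc b0 (b0 + 1)) :=
    fun q => intOn_of_bdd (F := fun u => X u * (lp q u - cc * wt q))
      (hXm.mul (hLm q)) (B := B * (1 + cc * wt q)) (fun u => by
      rw [abs_mul]
      have e1 : |lp q u - cc * wt q| ≤ 1 + cc * wt q := by
        have := lp_nonneg q u
        have := lp_le_one q u
        have : 0 ≤ cc * wt q := mul_nonneg cc_pos.le (wt_nonneg q)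
        rw [abs_le]
        constructor <;> linarith
      exact mul_le_mul (hXB u) e1 (abs_nonneg _) hB.le) _ _
  have hdec : ∫ u in Set.Ioc b0 (b0 + 1), X u * (cT Q u - cc * vT Q) =
      ∑ q ∈ Q, (∫ u in Set.Ioc b0 (b0 + 1), X u * gc q u) +
      (∫ u in Set.Ioc b0 (b0 + 1), ∑ q ∈ Q, X u * (lp q u - cc * wt q)) := by
    have e1 : ∀ u, X u * (cT Q u - cc * vT Q) = ∑ q ∈ Q, X u * gc q u +
        ∑ q ∈ Q, X u * (lp q u - cc * wt q) := by
      intro u
      unfold cT vT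
      rw [mul_sum, ← sum_sub_distrib, mul_sum, ← sum_add_distrib]
      refine sum_congr rfl fun q _ => ?_
      unfold gc
      ring
    simp only [e1]
    have i1 : IntegrableOn (fun u => ∑ q ∈ Q, X u * gc q u) (Set.Ioc b0 (b0 + 1)) :=
      integrable_finsetSum Q fun q _ => iZg q
    have i2 : IntegrableOn (fun u => ∑ q ∈ Q, X u * (lp q u - cc * wt q)) (Set.Ioc b0 (b0 + 1)) :=
      integrable_finsetSum Q fun q _ => iZm q
    rw [integral_add i1 i2, integral_finsetSum Q fun q _ => iZg q]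
  have herr1 : |∑ q ∈ Q, (∫ u in Set.Ioc b0 (b0 + 1), X u * gc q u)| ≤
      (C * (1 / a ^ A) + C) * (1 / (a * z)) * (vT Q * T0) := by
    refine (abs_sum_le_sum_abs _ _).trans ?_
    have e1 : (C * (1 / a ^ A) + C) * (1 / (a * z)) * (vT Q * T0) =
        ∑ q ∈ Q, (C * (1 / a ^ A) + C) * (1 / (a * z)) * (wt q * T0) := by
      unfold vT
      rw [sum_mul, mul_sum]
    rw [e1]
    refine sum_le_sum fun q hqQ => ?_
    obtain ⟨c1, c2, c3, c4, c5⟩ := hq q hqQ
    obtain ⟨_, _, hint⟩ := hcond q c3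
    have hq0 : (0 : ℝ) < q := haz0.trans c2
    have hr : ⌊ρ * z⌋₊ ≤ rr ε q := by
      unfold rr
      refine Nat.floor_le_floor ?_
      calc ρ * z ≤ (2 / 3 - ε) * a * z := mul_le_mul_of_nonneg_right hε2 hz0.le
        _ = (2 / 3 - ε) * (a * z) := by ring
        _ ≤ (2 / 3 - ε) * q := mul_le_mul_of_nonneg_left c2.le (by linarith)
    obtain ⟨G, hG1, hG2⟩ := (hX.mono hr).bdd hXB
    have h5 := hint (b0 + 1) (by linarith) le_rfl G B hG1
    simp only [← hG2] at h5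
    have h5' : |∫ u in Set.Ioc b0 (b0 + 1), X u * gc q u| ≤ C * (B / (q : ℝ) ^ (A + 2)) +
        C * (Real.log q / (q : ℝ) ^ 2) * ∫ u in Set.Ioc b0 (b0 + 1), |X u| := h5
    refine h5'.trans ?_
    have hinvq : 1 / (q : ℝ) ≤ 1 / (a * z) := one_div_le_one_div_of_le haz0 c2.le
    have hwq := wt_nonneg q
    have e6 : (1 : ℝ) / q * (1 / q) ≤ wt q * (1 / (a * z)) :=
      mul_le_mul (one_div_le_wt c5) hinvq (by positivity) hwq
    have e7 : B / (q : ℝ) ^ A ≤ (1 / a ^ A) * T0 := by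
      calc B / (q : ℝ) ^ A ≤ B / (a * z) ^ A :=
            div_le_div_of_nonneg_left hB.le (by positivity) (pow_le_pow_left₀ haz0.le c2.le A)
        _ = (1 / a ^ A) * (B / z ^ A) := by rw [mul_pow]; field_simp
        _ ≤ (1 / a ^ A) * T0 := by
            apply mul_le_mul_of_nonneg_left _ (by positivity)
            linarith
    have e2 : B / (q : ℝ) ^ (A + 2) ≤ (1 / a ^ A) * (1 / (a * z)) * (wt q * T0) := by
      have e3 : B / (q : ℝ) ^ (A + 2) = (B / (q : ℝ) ^ A) * (1 / q * (1 / q)) := by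
        rw [pow_add]
        field_simp
      rw [e3]
      calc (B / (q : ℝ) ^ A) * (1 / q * (1 / q)) ≤ ((1 / a ^ A) * T0) * (wt q * (1 / (a * z))) :=
            mul_le_mul e7 e6 (by positivity) (by positivity)
        _ = _ := by ring
    have e8 : Real.log q / (q : ℝ) ^ 2 ≤ wt q * (1 / (a * z)) := by
      have : Real.log q / (q : ℝ) ^ 2 = wt q * (1 / q) := by
        unfold wt
        field_simp
      rw [this]
      exact mul_le_mul_of_nonneg_left hinvq hwq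
    have e9 : C * (Real.log q / (q : ℝ) ^ 2) * IA ≤ C * (wt q * (1 / (a * z))) * T0 := by
      apply mul_le_mul _ (by linarith) hIA0 (by positivity)
      exact mul_le_mul_of_nonneg_left e8 hC.le
    have e10 := mul_le_mul_of_nonneg_left e2 hC.le
    calc _ ≤ C * ((1 / a ^ A) * (1 / (a * z)) * (wt q * T0)) + C * (wt q * (1 / (a * z))) * T0 :=
          add_le_add e10 e9
      _ = _ := by ring
  have hW0 : 0 ≤ vT Q := vT_nonneg Q
  have herr2 : |∫ u in Set.Ioc b0 (b0 + 1), ∑ q ∈ Q, X u * (lp q u - cc * wt q)| ≤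
      K * (1 / Real.log (a * z)) * (vT Q * T0) := by
    have hlog0 : 0 < Real.log (a * z) := Real.log_pos (by linarith)
    set D := K * (vT Q * (1 / Real.log (a * z))) with hD
    have hD0 : 0 ≤ D := by positivity
    have h5 : ∀ᵐ u ∂(volume.restrict (Set.Ioc b0 (b0 + 1))),
        ‖∑ q ∈ Q, X u * (lp q u - cc * wt q)‖ ≤ D * |X u| := by
      filter_upwards [hmean'] with u hu
      rw [Real.norm_eq_abs, ← mul_sum, abs_mul, mul_comm]
      apply mul_le_mul_of_nonneg_right _ (abs_nonneg _)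
      refine (abs_sum_le_sum_abs _ _).trans ?_
      have e1 : D = ∑ q ∈ Q, K * (wt q * (1 / Real.log (a * z))) := by
        rw [hD]
        unfold vT
        rw [sum_mul, mul_sum]
      rw [e1]
      refine sum_le_sum fun q hqQ => ?_
      obtain ⟨c1, c2, c3, c4, c5⟩ := hq q hqQ
      refine (hu q c4 c1).trans (mul_le_mul_of_nonneg_left ?_ hK)
      have hq0 : (0 : ℝ) < q := haz0.trans c2
      unfold wt
      rw [div_mul_div_comm, mul_one, div_le_div_iff₀ hq0 (by positivity), one_mul]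
      have := Real.log_le_log haz0 c2.le
      nlinarith
    have h6 := norm_integral_le_of_norm_le (iZa.const_mul D) h5
    rw [Real.norm_eq_abs, integral_const_mul] at h6
    refine h6.trans ?_
    have : D * IA ≤ D * T0 := mul_le_mul_of_nonneg_left (by linarith) hD0
    calc _ ≤ D * T0 := this
      _ = _ := by rw [hD]; ring
  -- the rates
  have hr1 : 1 / (a * z) ≤ (1 / a) * (1 / Real.log z) := by
    have h3 : Real.log z ≤ z := by
      have := Real.log_le_sub_one_of_pos hz0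
      linarith
    calc 1 / (a * z) = (1 / a) * (1 / z) := by field_simp
      _ ≤ (1 / a) * (1 / Real.log z) := by
          apply mul_le_mul_of_nonneg_left _ (by positivity)
          exact one_div_le_one_div_of_le hlz0 h3
  have hr2 : 1 / Real.log (a * z) ≤ 2 * (1 / Real.log z) := by
    have h3 : Real.log z ≤ 2 * Real.log (a * z) := by
      rw [Real.log_mul ha.ne' hz0.ne']
      have h4 := Real.log_le_log (by positivity) hz6
      rw [Real.log_pow, one_div, Real.log_inv] at h4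
      push_cast at h4
      linarith
    have hlog0 : 0 < Real.log (a * z) := Real.log_pos (by linarith)
    rw [mul_one_div, div_le_div_iff₀ hlog0 hlz0]
    linarith
  have hX0 : 0 ≤ vT Q * T0 := mul_nonneg hW0 hT00.le
  rw [hdec]
  have f1 := abs_add_le (∑ q ∈ Q, (∫ u in Set.Ioc b0 (b0 + 1), X u * gc q u))
    (∫ u in Set.Ioc b0 (b0 + 1), ∑ q ∈ Q, X u * (lp q u - cc * wt q))
  have hCC : 0 ≤ C * (1 / a ^ A) + C := by positivity
  calc _ ≤ (C * (1 / a ^ A) + C) * (1 / (a * z)) * (vT Q * T0) + K * (1 / Real.log (a * z)) * (vT Q * T0) := by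
        linarith
    _ ≤ (C * (1 / a ^ A) + C) * ((1 / a) * (1 / Real.log z)) * (vT Q * T0) +
        K * (2 * (1 / Real.log z)) * (vT Q * T0) := by gcongr
    _ = (C * (1 / a ^ A) * (1 / a) + C * (1 / a) + 2 * K) * (1 / Real.log z) * T0 * vT Q := by ring
    _ ≤ (C * (1 / a ^ A) * (1 / a) + C * (1 / a) + 2 * K) * (1 / Real.log z) * T0 * (l + 1) := by
        apply mul_le_mul_of_nonneg_left hz1 (by positivity)
    _ = _ := by ring

/-- the second moment of the number of exponents in a window -/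
theorem cT_sq (hS : SilS) (b0 : ℝ) {a b : ℝ} (ha : 0 < a) (hab : a < b) : ∃ C : ℝ, 0 < C ∧ ∀ᶠ z : ℝ in atTop,
    ∫ u in Set.Ioc b0 (b0 + 1), (cT (Pr (a * z) (b * z)) u) ^ 2 ≤ C := by
  have hbs0 := bs_pos
  have hb : 0 < b := ha.trans hab
  obtain ⟨C, hC, P1, hP13, hdiag, hrow⟩ := rows hS b0
  obtain ⟨K, hK, P2, hmean⟩ := (sys_bs b0).mean
  have hlr := Real.log_pos ((one_lt_div ha).2 hab)
  set l := Real.log (b / a) with hl
  have hv : Tendsto (fun z : ℝ => vT (Pr (a * z) (b * z))) atTop (𝓝 l) := mertens_window ha hab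
  have haz : Tendsto (fun z : ℝ => a * z) atTop atTop := tendsto_id.const_mul_atTop ha
  refine ⟨2 * (3 * C * (l + 1)) + 2 * ((cc + K) * (l + 1)) ^ 2, by have := cc_pos; positivity, ?_⟩
  filter_upwards [hv.eventually_le_const (show l < l + 1 by linarith), eventually_gt_atTop 0,
    haz.eventually_ge_atTop ((P1 : ℝ) + P2 + 3)] with z hz1 hz0 hz5
  have haz0 : 0 < a * z := by positivity
  have hbz0 : 0 < b * z := by positivity
  set Q := Pr (a * z) (b * z) with hQ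
  have hq : ∀ q ∈ Q, q.Prime ∧ P1 ≤ q ∧ P2 ≤ q ∧ 3 ≤ q := by
    intro q hq
    rw [hQ, mem_Pr haz0.le hbz0.le] at hq
    obtain ⟨c1, c2, c3⟩ := hq
    have c4 : ((P1 + P2 + 3 : ℕ) : ℝ) ≤ q := by push_cast; linarith
    have c5 : P1 + P2 + 3 ≤ q := by exact_mod_cast c4
    exact ⟨c1, by omega, by omega, by omega⟩
  set μ := volume.restrict (Set.Ioc b0 (b0 + 1)) with hμ
  have hW0 : 0 ≤ vT Q := vT_nonneg Q
  have hG : ∫ u, (∑ q ∈ Q, gc q u) ^ 2 ∂μ ≤ 3 * C * vT Q := by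
    refine (moment_rows (μ := μ) (G := gc) gc_meas gc_abs Q).trans ?_
    unfold vT
    rw [mul_sum]
    refine sum_le_sum fun q hqQ => ?_
    obtain ⟨c1, c2, c3, c4⟩ := hq q hqQ
    have h3 := hdiag q c2 c1
    have h4 := hrow q c2 c1 (Q.filter (fun p => p < q)) (fun p hp => by
      rw [mem_filter] at hp
      obtain ⟨d1, d2, d3, d4⟩ := hq p hp.1
      exact ⟨d1, d2, hp.2⟩)
    have h3' : ∫ u, (gc q u) ^ 2 ∂μ ≤ C * wt q := h3
    have h4' : ∑ p ∈ Q.filter (fun p => p < q), |∫ u, gc p u * gc q u ∂μ| ≤ C * wt q := h4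
    linarith
  have hpt : ∀ᵐ u ∂μ, (cT Q u) ^ 2 ≤ 2 * (∑ q ∈ Q, gc q u) ^ 2 + 2 * ((cc + K) * (l + 1)) ^ 2 := by
    have hmean' : ∀ᵐ u ∂μ, ∀ q ≥ P2, q.Prime → |lp q u - cc * wt q| ≤ K * (1 / q) := hmean
    filter_upwards [hmean'] with u hu
    have e1 : cT Q u = ∑ q ∈ Q, gc q u + ∑ q ∈ Q, lp q u := by
      unfold cT
      rw [← sum_add_distrib]
      refine sum_congr rfl fun q _ => ?_
      unfold gc
      ring
    have e2 : 0 ≤ ∑ q ∈ Q, lp q u := sum_nonneg fun q _ => lp_nonneg _ _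
    have e3 : ∑ q ∈ Q, lp q u ≤ (cc + K) * (l + 1) := by
      calc ∑ q ∈ Q, lp q u ≤ ∑ q ∈ Q, (cc + K) * wt q := by
            refine sum_le_sum fun q hqQ => ?_
            obtain ⟨c1, c2, c3, c4⟩ := hq q hqQ
            have h3 := (abs_le.1 (hu q c3 c1)).2
            have h4 := mul_le_mul_of_nonneg_left (one_div_le_wt c4) hK
            linarith
        _ = (cc + K) * vT Q := by unfold vT; rw [mul_sum]
        _ ≤ (cc + K) * (l + 1) := by
            apply mul_le_mul_of_nonneg_left hz1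
            have := cc_pos
            linarith
    rw [e1]
    set x := ∑ q ∈ Q, gc q u
    set y := ∑ q ∈ Q, lp q u
    have h5 : y ^ 2 ≤ ((cc + K) * (l + 1)) ^ 2 := pow_le_pow_left₀ e2 e3 2
    nlinarith [sq_nonneg (x - y)]
  have hgm : Measurable (fun u => ∑ q ∈ Q, gc q u) := Finset.measurable_fun_sum _ fun q _ => gc_meas q
  have hgb : ∀ u, |(∑ q ∈ Q, gc q u) ^ 2| ≤ (Q.card : ℝ) ^ 2 := fun u => by
    rw [abs_pow]
    refine pow_le_pow_left₀ (abs_nonneg _) ?_ 2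
    refine (abs_sum_le_sum_abs _ _).trans ?_
    calc ∑ q ∈ Q, |gc q u| ≤ ∑ _q ∈ Q, (1 : ℝ) := sum_le_sum fun q _ => gc_abs q u
      _ = Q.card := by rw [sum_const, nsmul_eq_mul, mul_one]
  have hcb : ∀ u, |(cT Q u) ^ 2| ≤ (b * z) ^ 2 := fun u => by
    rw [abs_pow, abs_of_nonneg (cT_nonneg _ _)]
    exact pow_le_pow_left₀ (cT_nonneg _ _) (cT_le hbz0.le subset_rfl u) 2
  have i1 : Integrable (fun u => (cT Q u) ^ 2) μ :=
    intOn_of_bdd ((cT_meas Q).pow_const 2) hcb _ _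
  have i2 : Integrable (fun u => (∑ q ∈ Q, gc q u) ^ 2) μ :=
    intOn_of_bdd (hgm.pow_const 2) hgb _ _
  calc ∫ u, (cT Q u) ^ 2 ∂μ ≤ ∫ u, (2 * (∑ q ∈ Q, gc q u) ^ 2 + 2 * ((cc + K) * (l + 1)) ^ 2) ∂μ :=
        integral_mono_ae i1 ((i2.const_mul 2).add (integrable_const _)) hpt
    _ = 2 * (∫ u, (∑ q ∈ Q, gc q u) ^ 2 ∂μ) + 2 * ((cc + K) * (l + 1)) ^ 2 := by
        rw [integral_add (i2.const_mul 2) (integrable_const _), integral_const_mul, integral_const, smul_eq_mul]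
        have : μ.real Set.univ = 1 := by
          rw [hμ, measureReal_restrict_apply_univ, Real.volume_real_Ioc_of_le (by linarith)]
          ring
        rw [this, one_mul]
    _ ≤ 2 * (3 * C * vT Q) + 2 * ((cc + K) * (l + 1)) ^ 2 := by linarith
    _ ≤ _ := by
        have : 3 * C * vT Q ≤ 3 * C * (l + 1) := mul_le_mul_of_nonneg_left hz1 (by positivity)
        linarith

end Pool.Agent.H176C
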