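import Mathlib
import Pool.Agent.H176C.Fin
import Pool.Agent.H447R2.ML.Spec

set_option autoImplicit false

/-!
# The pairs `(a, b)`
-/

namespace Pool.Agent.H176C

open Finset Filter MeasureTheory
open Pool.Agent.H176B (DB)
open Pool.Agent.H305R2 (roughPart)

/-- `(a ^ p - b ^ p) / (a - b)` -/
def MN (a b : ℤ) (p : ℕ) : ℤ := (a ^ p - b ^ p) / (a - b)

lemma MN_sum {a b : ℤ} (h2 : b < a) (p : ℕ) : MN a b p = ∑ i ∈ Finset.range p, a ^ i * b ^ (p - 1 - i) := by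
  have hgeom : (∑ i ∈ Finset.range p, a ^ i * b ^ (p - 1 - i)) * (a - b) = a ^ p - b ^ p :=
    (Commute.all a b).geom_sum₂_mul p
  unfold MN
  rw [← hgeom, Int.mul_ediv_cancel _ (by omega)]

lemma MN_real {a b : ℤ} (h2 : b < a) (p : ℕ) :
    ((MN a b p : ℤ) : ℝ) = 1 / ((a : ℝ) - b) * (a : ℝ) ^ p - (b : ℝ) ^ p / ((a : ℝ) - b) := by
  rw [MN_sum h2]
  exact Pool.Agent.H447R2.ML.quot_real h2 p

/-- the perturbation of the pair -/
noncomputable def gP (A : ℕ) (b : ℤ) (p : ℕ) : ℤ := MN A b p - (DB A (1 / ((A : ℝ) - b)) p : ℕ)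

/-- the growth of the perturbation -/
noncomputable def κP (b : ℤ) : ℝ := max |(b : ℝ)| 1

lemma κP_nonneg (b : ℤ) : 0 ≤ κP b := le_trans zero_le_one (le_max_right _ _)

lemma κP_lt {A : ℕ} {b : ℤ} (hA : 1 < A) (h1 : -(A : ℤ) < b) (h2 : b < A) : κP b < A := by
  have h3 : |b| < (A : ℤ) := abs_lt.2 ⟨h1, h2⟩
  have h4 : |(b : ℝ)| < (A : ℝ) := by exact_mod_cast h3
  exact max_lt h4 (by exact_mod_cast hA)

lemma gP_bound {A : ℕ} {b : ℤ} (hA : 1 < A) (h2 : b < A) (p : ℕ) : |((gP A b p : ℤ) : ℝ)| ≤ 2 * κP b ^ p := by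
  have hM := MN_real (a := (A : ℤ)) h2 p
  rw [Int.cast_natCast] at hM
  have hA0 : (0 : ℝ) < (A : ℝ) := by exact_mod_cast (by omega : 0 < A)
  have hab : (1 : ℝ) ≤ (A : ℝ) - b := by
    have : b + 1 ≤ (A : ℤ) := by omega
    have : ((b + 1 : ℤ) : ℝ) ≤ (A : ℝ) := by exact_mod_cast this
    push_cast at this
    linarith
  have hab0 : (0 : ℝ) < (A : ℝ) - b := by linarith
  set x : ℝ := 1 / ((A : ℝ) - b) * (A : ℝ) ^ p with hx
  have hx0 : 0 < x := by positivity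
  have h3 : 0 < ⌈x⌉₊ := Nat.ceil_pos.2 hx0
  have h4 := Nat.le_ceil x
  have h5 := Nat.ceil_lt_add_one hx0.le
  have hD : ((DB A (1 / ((A : ℝ) - b)) p : ℕ) : ℝ) = (⌈x⌉₊ : ℝ) - 1 := by
    show ((⌈x⌉₊ - 1 : ℕ) : ℝ) = _
    rw [Nat.cast_sub (by omega), Nat.cast_one]
  have hg : ((gP A b p : ℤ) : ℝ) = x - (b : ℝ) ^ p / ((A : ℝ) - b) - ((⌈x⌉₊ : ℝ) - 1) := by
    unfold gP
    rw [Int.cast_sub, hM, Int.cast_natCast, hD]
  have h6 : |(b : ℝ) ^ p / ((A : ℝ) - b)| ≤ κP b ^ p := by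
    rw [abs_div, abs_of_pos hab0, abs_pow, div_le_iff₀ hab0]
    have h7 : |(b : ℝ)| ^ p ≤ κP b ^ p := pow_le_pow_left₀ (abs_nonneg _) (le_max_left _ _) p
    have h8 : 0 ≤ κP b ^ p := pow_nonneg (κP_nonneg b) p
    nlinarith
  have h9 : 1 ≤ κP b ^ p := one_le_pow₀ (le_max_right _ _)
  obtain ⟨h10, h11⟩ := abs_le.1 h6
  rw [hg, abs_le]
  constructor <;> linarith

/-- all pairs at once -/
lemma all_pairs {P : ℝ → ℤ → ℤ → Prop}
    (h : ∀ a b : ℤ, 1 < a → -a < b → b < a → ∀ᵐ β : ℝ, 0 < β → P β a b) :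
    ∀ᵐ β : ℝ, 0 < β → ∀ a b : ℤ, 1 < a → -a < b → b < a → P β a b := by
  have h' : ∀ a b : ℤ, ∀ᵐ β : ℝ, 1 < a → -a < b → b < a → 0 < β → P β a b := by
    intro a b
    by_cases hc : 1 < a ∧ -a < b ∧ b < a
    · filter_upwards [h a b hc.1 hc.2.1 hc.2.2] with β hβ _ _ _
      exact hβ
    · exact Eventually.of_forall fun β h1 h2 h3 => absurd ⟨h1, h2, h3⟩ hc
  filter_upwards [ae_all_iff.2 fun a => ae_all_iff.2 (h' a)] with β hβ h0 a b ha h1 h2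
  exact hβ a b ha h1 h2 h0

/-- the number at the special amplitude -/
lemma rough_special {a b : ℤ} (hab : IsCoprime a b) (h1 : -a < b) (h2 : b < a) {p : ℕ} (hp : p.Prime)
    (hpd : ¬ (p : ℤ) ∣ a - b) : ((roughPart p (MN a b p).toNat : ℕ) : ℤ) = (a ^ p - b ^ p) / (a - b) := by
  have h := Pool.Agent.H447R2.ML.rough_quot hab h1 h2 hp hpd (MN_real h2 p)
  have e : ⌊((MN a b p : ℤ) : ℝ)⌋₊ = (MN a b p).toNat := by
    rw [← Int.floor_toNat, Int.floor_intCast]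
  rw [e] at h
  rw [h, ← MN_sum h2]
  rfl

end Pool.Agent.H176C
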