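import Mathlib
import Pool.Agent.H176C.Pairs

set_option autoImplicit false

/-!
# The integers `⌈β b ^ p⌉`
-/

namespace Pool.Agent.H176C

open Finset Filter MeasureTheory
open Pool.Agent.H176B (DB)
open Pool.Agent.H305R2 (roughPart)

/-- the constant perturbation `1` -/
def one' (_ : ℕ) : ℤ := 1

lemma one'_bound (p : ℕ) : |((one' p : ℤ) : ℝ)| ≤ 1 * (1 : ℝ) ^ p := by
  unfold one'
  simp

lemma SP_one {b : ℕ} (hb : 2 ≤ b) {β : ℝ} (hβ : 0 < β) (p : ℕ) : SP b one' β p = ⌈β * (b : ℝ) ^ p⌉₊ := by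
  have hb0 : (0 : ℝ) < b := by exact_mod_cast (by omega : 0 < b)
  have h : 0 < ⌈β * (b : ℝ) ^ p⌉₊ := Nat.ceil_pos.2 (by positivity)
  unfold SP DB one'
  omega

/-- the number at the special amplitude -/
lemma wagstaff_special {b : ℕ} (hb : 2 ≤ b) {p : ℕ} (hp : p.Prime) (hp2 : p ≠ 2) (hpd : ¬ p ∣ b + 1) :
    roughPart p ⌈1 / ((b : ℝ) + 1) * (b : ℝ) ^ p⌉₊ = (b ^ p + 1) / (b + 1) := by
  have hodd : Odd p := hp.odd_of_ne_two hp2
  obtain ⟨M, hM⟩ : b + 1 ∣ b ^ p + 1 := by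
    have := hodd.nat_add_dvd_pow_add_pow b 1
    rwa [one_pow] at this
  have hMd : (b ^ p + 1) / (b + 1) = M := by
    rw [hM]
    exact Nat.mul_div_cancel_left M (by omega)
  have hMr : ((M : ℝ)) * (b + 1) = (b : ℝ) ^ p + 1 := by
    have : ((b : ℝ) ^ p + 1) = (((b ^ p + 1 : ℕ)) : ℝ) := by push_cast; ring
    rw [this, hM]
    push_cast; ring
  have hb0 : (0 : ℝ) < (b : ℝ) + 1 := by positivity
  have hb2 : (2 : ℝ) ≤ b := by exact_mod_cast hb
  have hM0 : 1 ≤ M := by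
    rcases Nat.eq_zero_or_pos M with h | h
    · rw [h] at hM
      simp at hM
    · exact h
  have hfl : ⌈1 / ((b : ℝ) + 1) * (b : ℝ) ^ p⌉₊ = M := by
    rw [Nat.ceil_eq_iff (by omega), Nat.cast_sub hM0, Nat.cast_one]
    have e : 1 / ((b : ℝ) + 1) * (b : ℝ) ^ p = M - 1 / ((b : ℝ) + 1) := by
      field_simp
      linarith
    rw [e]
    have h1 : 1 / ((b : ℝ) + 1) < 1 := by
      rw [div_lt_one hb0]; linarith
    have h2 : 0 < 1 / ((b : ℝ) + 1) := by positivity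
    constructor <;> linarith
  rw [hfl, hMd]
  have hc : IsCoprime (b : ℤ) (-1) := isCoprime_one_right.neg_right
  have hd : ¬ (p : ℤ) ∣ (b : ℤ) - -1 := by
    intro h
    apply hpd
    have e : (b : ℤ) - -1 = ((b + 1 : ℕ) : ℤ) := by push_cast; ring
    rw [e] at h
    exact_mod_cast h
  have h := rough_special hc (by omega) (by omega) hp hd
  have hMN : MN (b : ℤ) (-1) p = (M : ℤ) := by
    unfold MN
    rw [hodd.neg_one_pow]
    have e1 : (b : ℤ) ^ p - -1 = ((b : ℤ) - -1) * M := by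
      have : ((b ^ p + 1 : ℕ) : ℤ) = (((b + 1) * M : ℕ) : ℤ) := by rw [hM]
      push_cast at this
      linarith
    rw [e1]
    exact Int.mul_ediv_cancel_left _ (by omega)
  have hMN' : ((b : ℤ) ^ p - (-1) ^ p) / ((b : ℤ) - -1) = M := hMN
  rw [hMN, hMN', Int.toNat_natCast] at h
  exact_mod_cast h

/-- all bases at once -/
lemma all_bases {P : ℝ → ℕ → Prop} (h : ∀ b : ℕ, 2 ≤ b → ∀ᵐ β : ℝ, 0 < β → P β b) :
    ∀ᵐ β : ℝ, 0 < β → ∀ b : ℕ, 2 ≤ b → P β b := by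
  have h' : ∀ b : ℕ, ∀ᵐ β : ℝ, 2 ≤ b → 0 < β → P β b := by
    intro b
    by_cases hc : 2 ≤ b
    · filter_upwards [h b hc] with β hβ _
      exact hβ
    · exact Eventually.of_forall fun β h1 => absurd h1 hc
  filter_upwards [ae_all_iff.2 h'] with β hβ h0 b hb
  exact hβ b hb h0

end Pool.Agent.H176C
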